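import Pool.Agent.Helper17.CP.Conn

/-!
# The bound for loops
-/

set_option autoImplicit false

open Finset
open scoped Classical

namespace Pool.Agent.Helper17.CP

open Pool.Agent.H46R2.K3 (St V vec)
open Pool.Agent.H46R2.K3.P

/-- the connective constant -/
noncomputable def μ : ℝ := TH966.KO.μ

theorem mu_ge : 77 / 20 ≤ μ := TH966.KO.mu_ge
theorem mu_le : μ ≤ 5 := TH966.KO.mu_le
theorem mu_pos : 0 < μ := by linarith [mu_ge]

theorem cS_ge (n : ℕ) : μ ^ n ≤ cS vec n := by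
  rw [cS_eq]
  exact TH966.KO.mu_pow n

theorem cS_pos (n : ℕ) : 0 < cS vec n := (pow_pos mu_pos n).trans_le (cS_ge n)

theorem LS_le (n : ℕ) (hn : 1 ≤ n) : LS vec n ≤ ((n : ℝ) + 1) ^ 2 * μ ^ (n + 2) := by
  obtain ⟨m, rfl⟩ : ∃ m, n = m + 1 := ⟨n - 1, by omega⟩
  rw [LS_eq]
  exact loops_le (m + 1) hn

theorem card_St : (Fintype.card St : ℝ) = 6 := by
  simp [Fintype.card_prod]

/-- weights -/
theorem zmu {z : ℝ} (hz1 : z ≤ 1 / μ) : z * μ ≤ 1 := by
  rw [le_div_iff₀ mu_pos] at hz1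
  exact hz1

/-- **The windows inequality.** -/
theorem windows {z : ℝ} (hz : 0 < z) (hz1 : z ≤ 1 / μ) {M : ℕ} (hM : 2 ≤ M) :
    ∑ n ∈ Finset.Ioc M (2 * M), LS vec n * z ^ n ≤
      200 * (Real.log M / M) * ∑ n ∈ Finset.range (3 * M + 1), cS vec n * z ^ n := by
  obtain ⟨P, hP⟩ : ∃ P, P = ∑ n ∈ Finset.Ioc M (2 * M), z ^ n * LS vec n := ⟨_, rfl⟩
  obtain ⟨X, hX⟩ : ∃ X, X = ∑ n ∈ Finset.range (3 * M + 1), z ^ n * cS vec n := ⟨_, rfl⟩
  have e1 : ∑ n ∈ Finset.Ioc M (2 * M), LS vec n * z ^ n = P := by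
    rw [hP]; exact Finset.sum_congr rfl fun n _ => mul_comm _ _
  have e2 : ∑ n ∈ Finset.range (3 * M + 1), cS vec n * z ^ n = X := by
    rw [hX]; exact Finset.sum_congr rfl fun n _ => mul_comm _ _
  rw [e1, e2]
  have hM0 : (2 : ℝ) ≤ M := by exact_mod_cast hM
  have hMp : (0 : ℝ) < M := by linarith
  have hlog2 : (0.69 : ℝ) ≤ Real.log M := by
    have h1 := Real.log_le_log (by norm_num) hM0
    have h2 := Real.log_two_gt_d9
    linarith
  have hP0 : 0 ≤ P := by
    rw [hP]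
    exact Finset.sum_nonneg fun n _ => mul_nonneg (pow_nonneg hz.le _) (LS_nonneg _ _)
  have hXM : z ^ M * cS vec M ≤ X := by
    rw [hX]
    exact Finset.single_le_sum (f := fun n => z ^ n * cS vec n)
      (fun n _ => mul_nonneg (pow_nonneg hz.le _) (cS_nonneg _ _))
      (Finset.mem_range.2 (by omega))
  have hX0 : 0 < X := lt_of_lt_of_le (mul_pos (pow_pos hz _) (cS_pos _)) hXM
  have hzm := zmu hz1
  rcases hP0.eq_or_lt with h0 | h0
  · rw [← h0]
    positivity
  suffices h : P / X ≤ 200 * (Real.log M / M) by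
    rwa [div_le_iff₀ hX0] at h
  obtain ⟨κ, hκ⟩ : ∃ κ, κ = P / X := ⟨_, rfl⟩
  have hκ0 : 0 < κ := by rw [hκ]; positivity
  rw [← hκ]
  have hcore := core (e := vec) (M := Finset.range (2 * M + 1)) (J := Finset.Ioc M (2 * M))
    (s := M) hz (by omega) (fun n hn => (Finset.mem_Ioc.1 hn).1)
    (fun n hn k _ _ => by
      have := (Finset.mem_Ioc.1 hn).2
      rw [Finset.mem_range]; omega) hX0
    (fun k hk => by
      rw [hX]
      have h1 : ∑ m ∈ Finset.range (2 * M + 1), z ^ (m + k) * cS vec (m + k) =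
          ∑ n ∈ (Finset.range (2 * M + 1)).image (fun m => m + k), z ^ n * cS vec n := by
        rw [Finset.sum_image]
        intro x _ y _ h
        simp only at h
        omega
      rw [h1]
      refine Finset.sum_le_sum_of_subset_of_nonneg ?_ fun n _ _ =>
        mul_nonneg (pow_nonneg hz.le _) (cS_nonneg _ _)
      intro n hn
      obtain ⟨m, hm, rfl⟩ := Finset.mem_image.1 hn
      rw [Finset.mem_range] at hm ⊢
      omega) (by rw [← hP]; exact h0)
  rw [← hP, ← hκ, card_St] at hcore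
  have h6z : 6 * z ≤ 2 := by
    have h1 : 77 / 20 * z ≤ 1 := by
      have := mul_le_mul_of_nonneg_right mu_ge hz.le
      linarith [mul_comm z μ]
    linarith
  have hexp : κ * Real.exp (M * κ / 2) ≤ Real.exp 1 * (z ^ M * cS vec M) := by
    refine le_trans ?_ hcore
    refine mul_le_mul_of_nonneg_left (Real.exp_le_exp.2 ?_) hκ0.le
    rw [mul_div_assoc]
    refine mul_le_mul_of_nonneg_left ?_ hMp.le
    exact div_le_div_of_nonneg_left hκ0.le (by positivity) h6z
  rw [← mul_div_assoc, le_div_iff₀ hMp]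
  rcases le_or_gt (z ^ M * cS vec M) ((M : ℝ) ^ 5) with hB | hB
  · -- few walks
    rcases le_or_gt (κ * M) 1 with h1 | h1
    · linarith
    · have h2 : Real.exp (M * κ / 2) ≤ Real.exp 1 * (M : ℝ) ^ 6 := by
        have h3 : κ * Real.exp (M * κ / 2) ≤ Real.exp 1 * (M : ℝ) ^ 5 :=
          hexp.trans (mul_le_mul_of_nonneg_left hB (Real.exp_pos _).le)
        have h4 : (M : ℝ) * (κ * Real.exp (M * κ / 2)) ≤ M * (Real.exp 1 * (M : ℝ) ^ 5) :=
          mul_le_mul_of_nonneg_left h3 hMp.le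
        have h5 : 1 * Real.exp (M * κ / 2) ≤ (κ * M) * Real.exp (M * κ / 2) :=
          mul_le_mul_of_nonneg_right h1.le (Real.exp_pos _).le
        calc Real.exp (M * κ / 2) ≤ (κ * M) * Real.exp (M * κ / 2) := by linarith
          _ = M * (κ * Real.exp (M * κ / 2)) := by ring
          _ ≤ M * (Real.exp 1 * (M : ℝ) ^ 5) := h4
          _ = _ := by ring
      have h3 := Real.log_le_log (Real.exp_pos _) h2
      rw [Real.log_exp, Real.log_mul (Real.exp_pos _).ne' (by positivity), Real.log_exp,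
        Real.log_pow] at h3
      push_cast at h3
      linarith
  · -- many walks
    have h1 : P ≤ 225 * (M : ℝ) ^ 3 := by
      have h2 : ∀ n ∈ Finset.Ioc M (2 * M), z ^ n * LS vec n ≤ 225 * (M : ℝ) ^ 2 := by
        intro n hn
        obtain ⟨h3, h4⟩ := Finset.mem_Ioc.1 hn
        have h5 := LS_le n (by omega)
        have h6 : (n : ℝ) ≤ 2 * M := by exact_mod_cast h4
        have h7 : (z * μ) ^ n ≤ 1 := pow_le_one₀ (mul_nonneg hz.le mu_pos.le) hzm
        have hμ5 : μ ^ 2 ≤ 25 := by nlinarith [mu_le, mu_pos]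
        have hn0 : (0 : ℝ) ≤ n := Nat.cast_nonneg _
        calc z ^ n * LS vec n ≤ z ^ n * (((n : ℝ) + 1) ^ 2 * μ ^ (n + 2)) :=
              mul_le_mul_of_nonneg_left h5 (pow_nonneg hz.le _)
          _ = (z * μ) ^ n * (((n : ℝ) + 1) ^ 2 * μ ^ 2) := by rw [mul_pow, pow_add]; ring
          _ ≤ 1 * ((3 * M) ^ 2 * 25) := by
            refine mul_le_mul h7 ?_ (by positivity) (by norm_num)
            refine mul_le_mul ?_ hμ5 (by positivity) (by positivity)
            exact pow_le_pow_left₀ (by positivity) (by linarith) 2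
          _ = _ := by ring
      rw [hP]
      refine (Finset.sum_le_sum h2).trans ?_
      rw [Finset.sum_const, Nat.card_Ioc, nsmul_eq_mul, show 2 * M - M = M by omega]
      exact le_of_eq (by ring)
    have h2 : (M : ℝ) ^ 5 ≤ X := hB.le.trans hXM
    have h3 : κ ≤ 225 / (M : ℝ) ^ 2 := by
      rw [hκ, div_le_div_iff₀ hX0 (by positivity)]
      calc P * (M : ℝ) ^ 2 ≤ 225 * (M : ℝ) ^ 3 * (M : ℝ) ^ 2 :=
            mul_le_mul_of_nonneg_right h1 (by positivity)
        _ = 225 * (M : ℝ) ^ 5 := by ring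
        _ ≤ 225 * X := by linarith
    have h4 : κ * M ≤ 225 / M := by
      calc κ * M ≤ 225 / (M : ℝ) ^ 2 * M := mul_le_mul_of_nonneg_right h3 hMp.le
        _ = 225 / M := by field_simp
    have h5 : 225 / (M : ℝ) ≤ 225 / 2 := div_le_div_of_nonneg_left (by norm_num) (by norm_num) hM0
    linarith

end Pool.Agent.Helper17.CP
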