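import Pool.Agent.Helper17.CP.Core
import Pool.Graph.R_seed8.H46R2.K3.LOOP
import Pool.Graph.R_seed8.H46R2.K3.EQ
import Pool.Graph.R_seed8.TH966.KO.WEnd

/-!
# Connection with the counting functions of the library
-/

set_option autoImplicit false
set_option linter.unusedSectionVars false

open Finset
open scoped Classical

namespace Pool.Agent.Helper17.CP

open Pool.Agent.H46R2.K3 (St V vec pos disp W)
open Pool.Agent.H46R2.K3.P

theorem sumL_eq (n : ℕ) (f : List St → ℝ) : sumL n f = ∑ w ∈ W n, f w := by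
  induction n generalizing f with
  | zero =>
    have : W 0 = {[]} := by
      ext w
      rw [mem_W, Finset.mem_singleton, List.length_eq_zero_iff]
    rw [this, Finset.sum_singleton]
    rfl
  | succ n ih =>
    have h1 : W (n + 1) = ((Finset.univ : Finset St) ×ˢ W n).image (fun p => p.1 :: p.2) := by
      ext w
      rw [mem_W, Finset.mem_image]
      constructor
      · intro h
        cases w with
        | nil => simp at h
        | cons d l =>
          exact ⟨(d, l), by rw [Finset.mem_product, mem_W]; exact ⟨Finset.mem_univ _, by simpa using h⟩,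
            rfl⟩
      · rintro ⟨⟨d, l⟩, h, rfl⟩
        rw [Finset.mem_product, mem_W] at h
        simp [h.2]
    rw [h1, Finset.sum_image, Finset.sum_product]
    · simp only [sumL, ih]
    · rintro ⟨d, l⟩ _ ⟨d', l'⟩ _ h
      simp only [List.cons.injEq] at h
      rw [Prod.mk.injEq]
      exact h

theorem wt_eq (l : List St) : wt vec l = disp l := rfl

theorem saw_iff (l : List St) : Saw vec l ↔ Pool.Agent.H46R2.K3.Saw l := by
  constructor
  · intro h i j hij hj he
    have h1 : (l.take j).drop i ≠ [] := by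
      intro h2
      have := congrArg List.length h2
      rw [List.length_drop, List.length_take, List.length_nil] at this
      omega
    refine h _ h1 ?_ ?_
    · exact (List.drop_suffix _ _).isInfix.trans (List.take_prefix _ _).isInfix
    · rw [wt_eq]
      have h2 : disp ((l.take j).take i) + disp ((l.take j).drop i) = disp (l.take j) := by
        rw [← disp_append, List.take_append_drop]
      rw [disp_take, disp_take, pos_take hij.le, he] at h2
      exact left_eq_add.1 h2.symm
  · intro h i h0 hi he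
    obtain ⟨x, y, rfl⟩ := hi
    have h1 : i.length ≠ 0 := by
      rw [Ne, List.length_eq_zero_iff]
      exact h0
    refine h x.length (x.length + i.length) (by omega) (by simp) ?_
    rw [← disp_take, ← disp_take]
    have e1 : (x ++ i ++ y).take x.length = x := by
      rw [List.append_assoc, List.take_left]
    have e2 : (x ++ i ++ y).take (x.length + i.length) = x ++ i := by
      rw [← List.length_append, List.take_left]
    rw [e1, e2, disp_append]
    rw [wt_eq] at he
    rw [he, add_zero]

theorem loop_iff {n : ℕ} {l : List St} (hl : l.length = n + 1) : Loop vec l ↔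
    disp l = 0 ∧ ∀ i j, i < j → j < n + 1 → pos l i ≠ pos l j := by
  have h1 : ∀ i ≤ n, pos l.dropLast i = pos l i := by
    intro i hi
    rw [List.dropLast_eq_take, hl, Nat.add_sub_cancel, pos_take hi]
  have h2 : l ≠ [] := by
    rintro rfl
    simp at hl
  have h3 : l.dropLast.length = n := by rw [List.length_dropLast, hl]; rfl
  unfold Loop
  rw [saw_iff, wt_eq]
  constructor
  · rintro ⟨_, h4, h5⟩
    refine ⟨h4, fun i j hij hj => ?_⟩
    have := h5 i j hij (by omega)
    rwa [h1 i (by omega), h1 j (by omega)] at this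
  · rintro ⟨h4, h5⟩
    refine ⟨h2, h4, fun i j hij hj => ?_⟩
    rw [h1 i (by omega), h1 j (by omega)]
    exact h5 i j hij (by omega)

theorem card_eq (n : ℕ) (p : List St → Prop) :
    sumL n (fun l => ind (p l)) = (((W n).filter p).card : ℝ) := by
  rw [sumL_eq, Finset.card_filter]
  push_cast
  rfl

theorem cS_eq (n : ℕ) : cS vec n = (Pool.Agent.H46R2.K3.c n : ℝ) := by
  unfold cS Pool.Agent.H46R2.K3.c
  rw [card_eq]
  congr 2
  ext w
  rw [Finset.mem_filter, Finset.mem_filter, saw_iff]

theorem LS_eq (n : ℕ) : LS vec (n + 1) = (Pool.Agent.H46R2.K3.loops (n + 1) : ℝ) := by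
  unfold LS Pool.Agent.H46R2.K3.loops
  rw [card_eq]
  congr 2
  ext w
  rw [Finset.mem_filter, Finset.mem_filter, mem_W]
  constructor
  · rintro ⟨h1, h2⟩
    exact ⟨h1, (loop_iff h1).1 h2⟩
  · rintro ⟨h1, h2⟩
    exact ⟨h1, (loop_iff h1).2 h2⟩

/-- the number of `n`-step self-avoiding words which end next to the origin -/
theorem LS_eq' (n : ℕ) : LS vec (n + 1) =
    (((W n).filter fun v => Pool.Agent.H46R2.K3.Saw v ∧ ∑ j, |disp v j| = 1).card : ℝ) := by
  have h0 : (((W n).filter fun v => Pool.Agent.H46R2.K3.Saw v ∧ ∑ j, |disp v j| = 1).card : ℝ) =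
      sumL n (fun l => ind (Pool.Agent.H46R2.K3.Saw l ∧ ∑ j, |disp l j| = 1)) := by
    rw [card_eq]
    congr!
  rw [h0]
  unfold LS
  rw [sumL_concat]
  refine sumL_congr fun l hl => ?_
  have h1 : ∀ d : St, Loop vec (l ++ [d]) ↔ Pool.Agent.H46R2.K3.Saw l ∧ vec d = -disp l := by
    intro d
    unfold Loop
    rw [List.dropLast_concat, saw_iff, wt_append, wt_cons, wt_nil, add_zero, wt_eq]
    constructor
    · rintro ⟨_, h2, h3⟩
      exact ⟨h3, by rw [eq_neg_iff_add_eq_zero, add_comm]; exact h2⟩
    · rintro ⟨h3, h2⟩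
      exact ⟨by simp, by rw [h2]; simp, h3⟩
  by_cases hs : Pool.Agent.H46R2.K3.Saw l ∧ ∑ j, |disp l j| = 1
  · obtain ⟨d, hd⟩ := eq_exists_letter (-disp l) (by simpa using hs.2)
    have h2 : ind (Pool.Agent.H46R2.K3.Saw l ∧ ∑ j, |disp l j| = 1) = 1 := by
      unfold ind
      rw [if_pos hs]
    rw [h2, Finset.sum_eq_single d]
    · unfold ind
      rw [if_pos ((h1 d).2 ⟨hs.1, hd⟩)]
    · intro d' _ hne
      unfold ind
      rw [if_neg]
      intro h
      exact hne (eq_vec_inj (((h1 d').1 h).2.trans hd.symm))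
    · intro h
      exact absurd (Finset.mem_univ d) h
  · have h2 : ind (Pool.Agent.H46R2.K3.Saw l ∧ ∑ j, |disp l j| = 1) = 0 := by
      unfold ind
      rw [if_neg hs]
    rw [h2]
    refine Finset.sum_eq_zero fun d _ => ?_
    unfold ind
    rw [if_neg]
    intro h
    refine hs ⟨((h1 d).1 h).1, ?_⟩
    have h3 := eq_vec_norm d
    rw [((h1 d).1 h).2] at h3
    simpa using h3

/-- the walk of a word -/
def wk (n : ℕ) (w : List St) : Fin (n + 1) → Fin 3 → ℤ := fun i => pos w i

theorem bij (n : ℕ) : Set.BijOn (wk n) {w | w.length = n ∧ Pool.Agent.H46R2.K3.Saw w}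
    {ω | TH966.KO.IsSAW n ω} := by
  refine ⟨?_, ?_, ?_⟩
  · rintro w ⟨hl, hsaw⟩
    refine ⟨?_, ?_, ?_⟩
    · simp [wk]
    · intro i
      have h1 : ∀ j, wk n w i.succ j - wk n w i.castSucc j = vec (w[(i : ℕ)]'(by omega)) j := by
        intro j
        have h2 := eq_pos_succ (w := w) (k := i) (by omega)
        unfold wk
        rw [Fin.val_succ, Fin.val_castSucc, h2]
        simp
      simp only [h1]
      exact eq_vec_norm _
    · intro i j hij
      by_contra hne
      rcases lt_or_gt_of_ne hne with h | h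
      · exact hsaw i j h (by omega) hij
      · exact hsaw j i h (by omega) hij.symm
  · rintro w ⟨hlen, _⟩ w' ⟨hlen', _⟩ h
    exact eq_ext (n := n) hlen hlen' fun k hk => congrFun h ⟨k, by omega⟩
  · rintro ω ⟨h0, h1, hinj⟩
    obtain ⟨v, hlen, hv⟩ := eq_exists_word ω h0 h1
    refine ⟨v, ⟨hlen, fun i j hij hj h => ?_⟩, ?_⟩
    · have e1 := hv ⟨i, by omega⟩
      have e2 := hv ⟨j, by omega⟩
      simp only at e1 e2
      rw [e1, e2] at h
      have := hinj h
      rw [Fin.mk.injEq] at this
      omega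
    · funext i
      exact hv i

theorem close_eq (n : ℕ) :
    (({ω | TH966.KO.IsSAW n ω ∧ ∑ j, |ω (Fin.last n) j| = 1}.ncard : ℕ) : ℝ) = LS vec (n + 1) := by
  rw [LS_eq']
  congr 1
  have h1 : {ω | TH966.KO.IsSAW n ω ∧ ∑ j, |ω (Fin.last n) j| = 1} =
      wk n '' ((((W n).filter fun v => Pool.Agent.H46R2.K3.Saw v ∧ ∑ j, |disp v j| = 1) :
        Finset (List St)) : Set (List St)) := by
    ext ω
    constructor
    · rintro ⟨h2, h3⟩
      obtain ⟨w, ⟨hl, hw⟩, rfl⟩ := (bij n).surjOn h2
      refine ⟨w, ?_, rfl⟩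
      rw [Finset.mem_coe, Finset.mem_filter, mem_W]
      refine ⟨hl, hw, ?_⟩
      unfold wk at h3
      rw [Fin.val_last, ← hl, ← disp_take, List.take_length] at h3
      exact h3
    · rintro ⟨w, hw, rfl⟩
      rw [Finset.mem_coe, Finset.mem_filter, mem_W] at hw
      refine ⟨(bij n).mapsTo ⟨hw.1, hw.2.1⟩, ?_⟩
      unfold wk
      rw [Fin.val_last, ← hw.1, ← disp_take, List.take_length]
      exact hw.2.2
  rw [h1, Set.InjOn.ncard_image, Set.ncard_coe_finset]
  intro w hw w' hw' h
  rw [Finset.mem_coe, Finset.mem_filter, mem_W] at hw hw'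
  exact (bij n).injOn ⟨hw.1, hw.2.1⟩ ⟨hw'.1, hw'.2.1⟩ h

end Pool.Agent.Helper17.CP
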