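import Mathlib

/-!
# Self-avoiding walks and loops as words, and the basic inequality for loops
-/

set_option autoImplicit false
set_option linter.unusedSectionVars false

open Finset
open scoped Classical

namespace Pool.Agent.Helper17.CP

variable {D : Type} [Fintype D] {G : Type} [AddCommGroup G] (e : D → G)

/-- the sum of the steps of a word -/
def wt (l : List D) : G := (l.map e).sum

/-- self-avoiding words -/
def Saw (l : List D) : Prop := ∀ i : List D, i ≠ [] → i <:+: l → wt e i ≠ 0

/-- loops -/
def Loop (l : List D) : Prop := l ≠ [] ∧ wt e l = 0 ∧ Saw e l.dropLast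

theorem wt_nil : wt e [] = 0 := by simp [wt]

theorem wt_cons (d : D) (l : List D) : wt e (d :: l) = e d + wt e l := by simp [wt]

theorem wt_append (l l' : List D) : wt e (l ++ l') = wt e l + wt e l' := by simp [wt]

variable {e}

theorem Saw.mono {l l' : List D} (h : Saw e l') (hl : l <:+: l') : Saw e l :=
  fun i h0 hi => h i h0 (hi.trans hl)

theorem Loop.concat {l : List D} {d : D} (h : Loop e (l ++ [d])) : Saw e l := by
  have := h.2.2
  rwa [List.dropLast_concat] at this

theorem Loop.rot1 {l : List D} {d : D} (h : Loop e (l ++ [d])) : Loop e (d :: l) := by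
  have hl := h.concat
  have hw := h.2.1
  rw [wt_append, wt_cons, wt_nil, add_zero] at hw
  refine ⟨by simp, by rw [wt_cons, add_comm]; exact hw, ?_⟩
  rcases List.eq_nil_or_concat l with rfl | ⟨l', x, rfl⟩
  · intro i h0 hi
    simp only [List.dropLast_singleton, List.infix_nil] at hi
    exact absurd hi h0
  · rw [List.concat_eq_append] at *
    rw [← List.cons_append, List.dropLast_concat]
    intro i h0 hi
    rcases List.infix_cons_iff.1 hi with h1 | h1
    · rcases List.prefix_cons_iff.1 h1 with h2 | ⟨p, rfl, hp⟩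
      · exact absurd h2 h0
      · obtain ⟨r, rfl⟩ := hp
        intro h3
        refine hl (r ++ [x]) (by simp) ⟨p, [], by simp⟩ ?_
        rw [wt_append, wt_append, wt_cons, wt_nil, add_zero] at hw
        rw [wt_append, wt_cons, wt_nil, add_zero]
        rw [wt_cons] at h3
        have : wt e p + wt e r + e x + e d = (e d + wt e p) + (wt e r + e x) := by abel
        rw [this, h3, zero_add] at hw
        exact hw
    · exact hl i h0 (h1.trans ⟨[], [x], by simp⟩)

theorem Loop.rot {x y : List D} (h : Loop e (x ++ y)) : Loop e (y ++ x) := by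
  induction y generalizing x with
  | nil => simpa using h
  | cons d y ih =>
    have h1 : Loop e ((x ++ [d]) ++ y) := by simpa using h
    have h2 := ih h1
    rw [← List.append_assoc] at h2
    simpa using h2.rot1

theorem Loop.right {b a : List D} (h : Loop e (b ++ a)) (hb : b ≠ []) : Saw e a := by
  have h1 := h.rot.2.2
  rw [List.dropLast_append_of_ne_nil hb] at h1
  exact h1.mono ⟨[], b.dropLast, by simp⟩

/-! ### Sums over words -/

/-- the sum over all words of length `n` -/
def sumL : ℕ → (List D → ℝ) → ℝ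
  | 0, f => f []
  | n + 1, f => ∑ d, sumL n (fun l => f (d :: l))

theorem sumL_le {n : ℕ} {f g : List D → ℝ} (h : ∀ l, l.length = n → f l ≤ g l) :
    sumL n f ≤ sumL n g := by
  induction n generalizing f g with
  | zero => exact h [] rfl
  | succ n ih =>
    exact Finset.sum_le_sum fun d _ => ih fun l hl => h (d :: l) (by simp [hl])

theorem sumL_congr {n : ℕ} {f g : List D → ℝ} (h : ∀ l, l.length = n → f l = g l) :
    sumL n f = sumL n g :=
  le_antisymm (sumL_le fun l hl => (h l hl).le) (sumL_le fun l hl => (h l hl).ge)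

theorem sumL_zero (n : ℕ) : sumL n (fun _ : List D => (0 : ℝ)) = 0 := by
  induction n with
  | zero => rfl
  | succ n ih => simp only [sumL, ih, Finset.sum_const_zero]

theorem sumL_nonneg {n : ℕ} {f : List D → ℝ} (h : ∀ l, l.length = n → 0 ≤ f l) :
    0 ≤ sumL n f := by
  rw [← sumL_zero (D := D) n]
  exact sumL_le h

theorem sumL_add (n : ℕ) (f g : List D → ℝ) :
    sumL n (fun l => f l + g l) = sumL n f + sumL n g := by
  induction n generalizing f g with
  | zero => rfl
  | succ n ih => simp only [sumL, ih, Finset.sum_add_distrib]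

theorem sumL_mul (n : ℕ) (c : ℝ) (f : List D → ℝ) :
    sumL n (fun l => c * f l) = c * sumL n f := by
  induction n generalizing f with
  | zero => rfl
  | succ n ih => simp only [sumL, ih, Finset.mul_sum]

theorem sumL_sum {ι : Type*} (n : ℕ) (s : Finset ι) (f : ι → List D → ℝ) :
    sumL n (fun l => ∑ i ∈ s, f i l) = ∑ i ∈ s, sumL n (f i) := by
  induction s using Finset.induction_on with
  | empty => simp only [Finset.sum_empty]; exact sumL_zero n
  | insert a s ha ih => simp only [Finset.sum_insert ha, sumL_add, ih]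

theorem sumL_append (m k : ℕ) (f : List D → ℝ) :
    sumL (m + k) f = sumL m (fun b => sumL k (fun a => f (b ++ a))) := by
  induction m generalizing f with
  | zero => simp [sumL]
  | succ m ih =>
    rw [show m + 1 + k = (m + k) + 1 by ring]
    simp only [sumL, ih, List.cons_append]

theorem sumL_concat (n : ℕ) (f : List D → ℝ) :
    sumL (n + 1) f = sumL n (fun l => ∑ d, f (l ++ [d])) := by
  rw [sumL_append]
  rfl

theorem sumL_swap (m k : ℕ) (f : List D → List D → ℝ) :
    sumL m (fun b => sumL k (fun a => f b a)) = sumL k (fun a => sumL m (fun b => f b a)) := by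
  induction m generalizing f with
  | zero => rfl
  | succ m ih =>
    simp only [sumL]
    rw [sumL_sum]
    exact Finset.sum_congr rfl fun d _ => ih _

theorem single_le {n : ℕ} {f : List D → ℝ} (h : ∀ l, 0 ≤ f l) {a : List D} (ha : a.length = n) :
    f a ≤ sumL n f := by
  induction n generalizing f a with
  | zero => rw [List.length_eq_zero_iff.1 ha]; exact le_rfl
  | succ n ih =>
    obtain ⟨d, a', rfl⟩ : ∃ d a', a = d :: a' := by
      cases a with
      | nil => simp at ha
      | cons d a' => exact ⟨d, a', rfl⟩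
    have h1 := ih (f := fun l => f (d :: l)) (fun l => h _) (a := a') (by simpa using ha)
    refine h1.trans ?_
    exact Finset.single_le_sum (f := fun d => sumL n (fun l => f (d :: l)))
      (fun d _ => sumL_nonneg fun l _ => h _) (Finset.mem_univ d)

/-- indicators -/
noncomputable def ind (p : Prop) : ℝ := if p then 1 else 0

theorem ind_nonneg (p : Prop) : 0 ≤ ind p := by unfold ind; split_ifs <;> norm_num

theorem ind_le_one (p : Prop) : ind p ≤ 1 := by unfold ind; split_ifs <;> norm_num

theorem ind_mono {p q : Prop} (h : p → q) : ind p ≤ ind q := by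
  unfold ind
  split_ifs with h1 h2 h2
  · exact le_rfl
  · exact absurd (h h1) h2
  · norm_num
  · exact le_rfl

variable (e)

/-- the number of self-avoiding words of length `n` -/
noncomputable def cS (n : ℕ) : ℝ := sumL n (fun l => ind (Saw e l))

/-- the number of loops of length `n` -/
noncomputable def LS (n : ℕ) : ℝ := sumL n (fun l => ind (Loop e l))

theorem cS_nonneg (n : ℕ) : 0 ≤ cS e n := sumL_nonneg fun _ _ => ind_nonneg _

theorem LS_nonneg (n : ℕ) : 0 ≤ LS e n := sumL_nonneg fun _ _ => ind_nonneg _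

/-- weighted number of walks attached to `a` -/
noncomputable def NN (M : Finset ℕ) (z : ℝ) (a : List D) : ℝ :=
  ∑ m ∈ M, z ^ m * sumL m (fun b => ind (Saw e (b ++ a)))

/-- weighted number of loops through `a` -/
noncomputable def PP (M : Finset ℕ) (z : ℝ) (a : List D) : ℝ :=
  ∑ m ∈ M, z ^ m * sumL m (fun b => ind (Loop e (b ++ a)))

variable {e} {M : Finset ℕ} {z : ℝ}

theorem NN_nonneg (hz : 0 ≤ z) (a : List D) : 0 ≤ NN e M z a :=
  Finset.sum_nonneg fun _ _ => mul_nonneg (pow_nonneg hz _) (sumL_nonneg fun _ _ => ind_nonneg _)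

theorem PP_nonneg (hz : 0 ≤ z) (a : List D) : 0 ≤ PP e M z a :=
  Finset.sum_nonneg fun _ _ => mul_nonneg (pow_nonneg hz _) (sumL_nonneg fun _ _ => ind_nonneg _)

theorem NP (hz : 0 ≤ z) (a : List D) (d : D) :
    NN e M z (a ++ [d]) + PP e M z (a ++ [d]) ≤ NN e M z a := by
  unfold NN PP
  rw [← Finset.sum_add_distrib]
  refine Finset.sum_le_sum fun m _ => ?_
  rw [← mul_add, ← sumL_add]
  refine mul_le_mul_of_nonneg_left (sumL_le fun b _ => ?_) (pow_nonneg hz _)
  by_cases h1 : Loop e (b ++ (a ++ [d]))
  · have h2 : ¬ Saw e (b ++ (a ++ [d])) := fun h => h _ h1.1 (List.infix_refl _) h1.2.1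
    have h3 : Saw e (b ++ a) := by
      rw [← List.append_assoc] at h1
      exact h1.concat
    simp only [ind, if_pos h1, if_neg h2, if_pos h3]
    norm_num
  · have : ind (Loop e (b ++ (a ++ [d]))) = 0 := by unfold ind; rw [if_neg h1]
    rw [this, add_zero]
    exact ind_mono fun h => h.mono ⟨[], [d], by simp⟩

/-- the conditional closing probability -/
noncomputable def qq (e : D → G) (M : Finset ℕ) (z : ℝ) (a : List D) : ℝ :=
  PP e M z a / NN e M z a.dropLast

/-- the sum of the conditional closing probabilities -/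
noncomputable def SQ (e : D → G) (M : Finset ℕ) (z : ℝ) (a : List D) : ℝ :=
  ∑ k ∈ Finset.range a.length, qq e M z (a.take (k + 1))

theorem PP_le (hz : 0 ≤ z) (a : List D) (ha : a ≠ []) : PP e M z a ≤ NN e M z a.dropLast := by
  obtain ⟨a', d, rfl⟩ := (List.eq_nil_or_concat a).resolve_left ha
  rw [List.concat_eq_append, List.dropLast_concat]
  have := NP (e := e) (M := M) hz a' d
  linarith [NN_nonneg (e := e) (M := M) hz (a' ++ [d])]

theorem qq_nonneg (hz : 0 ≤ z) (a : List D) : 0 ≤ qq e M z a :=
  div_nonneg (PP_nonneg hz a) (NN_nonneg hz _)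

theorem qq_le_one (hz : 0 ≤ z) (a : List D) (ha : a ≠ []) : qq e M z a ≤ 1 :=
  div_le_one_of_le₀ (PP_le hz a ha) (NN_nonneg hz _)

theorem SQ_concat (a : List D) (d : D) :
    SQ e M z (a ++ [d]) = SQ e M z a + qq e M z (a ++ [d]) := by
  unfold SQ
  rw [List.length_append, List.length_singleton, Finset.sum_range_succ]
  congr 1
  · refine Finset.sum_congr rfl fun k hk => ?_
    rw [List.take_append_of_le_length (by have := Finset.mem_range.1 hk; omega)]
  · rw [List.take_of_length_le (by simp)]

theorem NN_le (hz : 0 ≤ z) (a : List D) :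
    NN e M z a ≤ NN e M z [] * Real.exp (-SQ e M z a) := by
  induction a using List.reverseRecOn with
  | nil => simp [SQ]
  | append_singleton a d ih =>
    have h1 := NP (e := e) (M := M) hz a d
    have hN := NN_nonneg (e := e) (M := M) hz a
    have hq := qq_nonneg (e := e) (M := M) hz (a ++ [d])
    have h2 : PP e M z (a ++ [d]) = NN e M z a * qq e M z (a ++ [d]) := by
      unfold qq
      rw [List.dropLast_concat]
      rcases hN.eq_or_lt with h | h
      · have h3 := PP_le (e := e) (M := M) hz (a ++ [d]) (by simp)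
        rw [List.dropLast_concat, ← h] at h3
        have h4 := PP_nonneg (e := e) (M := M) hz (a ++ [d])
        rw [← h, zero_mul]
        linarith
      · field_simp
    have h3 : NN e M z (a ++ [d]) ≤ NN e M z a * (1 - qq e M z (a ++ [d])) := by
      rw [mul_sub, mul_one, ← h2]
      linarith
    rw [SQ_concat, neg_add, Real.exp_add, ← mul_assoc]
    have h4 : 1 - qq e M z (a ++ [d]) ≤ Real.exp (-qq e M z (a ++ [d])) := by
      have := Real.add_one_le_exp (-qq e M z (a ++ [d]))
      linarith
    calc NN e M z (a ++ [d]) ≤ NN e M z a * (1 - qq e M z (a ++ [d])) := h3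
      _ ≤ NN e M z a * Real.exp (-qq e M z (a ++ [d])) := mul_le_mul_of_nonneg_left h4 hN
      _ ≤ _ := mul_le_mul_of_nonneg_right ih (Real.exp_pos _).le

/-! ### The measure on words of length `s` -/

/-- weighted number of loops through `a`, total lengths in `J` -/
noncomputable def QQ (e : D → G) (J : Finset ℕ) (z : ℝ) (k : ℕ) (a : List D) : ℝ :=
  ∑ n ∈ J, z ^ n * sumL (n - k) (fun b => ind (Loop e (b ++ a)))

theorem QQ_nonneg {J : Finset ℕ} (hz : 0 ≤ z) (k : ℕ) (a : List D) : 0 ≤ QQ e J z k a :=
  Finset.sum_nonneg fun _ _ => mul_nonneg (pow_nonneg hz _) (sumL_nonneg fun _ _ => ind_nonneg _)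

theorem QQ_total {J : Finset ℕ} {s : ℕ} (hJ : ∀ n ∈ J, s < n) :
    sumL s (QQ e J z s) = ∑ n ∈ J, z ^ n * LS e n := by
  unfold QQ
  rw [sumL_sum]
  refine Finset.sum_congr rfl fun n hn => ?_
  rw [sumL_mul]
  congr 1
  rw [sumL_swap]
  have h := sumL_append (n - s) s (fun l => ind (Loop e l))
  rw [Nat.sub_add_cancel (hJ n hn).le] at h
  unfold LS
  rw [h]

theorem QQ_marg {J : Finset ℕ} {s : ℕ} (hz : 0 ≤ z) (hJ : ∀ n ∈ J, s < n) {k : ℕ} (hk : k ≤ s)
    (a : List D) : sumL (s - k) (fun c => QQ e J z s (a ++ c)) ≤ QQ e J z k a := by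
  unfold QQ
  rw [sumL_sum]
  refine Finset.sum_le_sum fun n hn => ?_
  rw [sumL_mul]
  refine mul_le_mul_of_nonneg_left ?_ (pow_nonneg hz _)
  have h := sumL_append (s - k) (n - s) (fun l => ind (Loop e (l ++ a)))
  rw [show s - k + (n - s) = n - k by have := hJ n hn; omega] at h
  rw [h]
  refine sumL_le fun c _ => sumL_le fun b _ => ind_mono fun h1 => ?_
  have h2 : Loop e ((b ++ a) ++ c) := by simpa using h1
  have h3 := h2.rot
  simpa using h3

theorem QQ_le_PP {J : Finset ℕ} {s : ℕ} (hz : 0 ≤ z) {k : ℕ} (hk : k ≤ s) (hk1 : 1 ≤ k)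
    (hJ : ∀ n ∈ J, s < n) (hJM : ∀ n ∈ J, ∀ k, 1 ≤ k → k ≤ s → n - k ∈ M) (a : List D) :
    QQ e J z k a ≤ z ^ k * PP e M z a := by
  unfold QQ PP
  rw [Finset.mul_sum]
  have h1 : ∑ n ∈ J, z ^ n * sumL (n - k) (fun b => ind (Loop e (b ++ a))) =
      ∑ m ∈ J.image (fun n => n - k), z ^ k * (z ^ m * sumL m (fun b => ind (Loop e (b ++ a)))) := by
    rw [Finset.sum_image]
    · refine Finset.sum_congr rfl fun n hn => ?_
      rw [← mul_assoc, ← pow_add, show k + (n - k) = n by have := hJ n hn; omega]
    · intro x hx y hy hxy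
      have := hJ x hx
      have := hJ y hy
      simp only at hxy
      omega
  rw [h1]
  refine Finset.sum_le_sum_of_subset_of_nonneg ?_ fun m _ _ => mul_nonneg (pow_nonneg hz _)
    (mul_nonneg (pow_nonneg hz _) (sumL_nonneg fun _ _ => ind_nonneg _))
  intro m hm
  obtain ⟨n, hn, rfl⟩ := Finset.mem_image.1 hm
  exact hJM n hn k hk1 hk

theorem QQ_saw {J : Finset ℕ} {s : ℕ} (hJ : ∀ n ∈ J, s < n) (a : List D)
    (h : ¬ Saw e a) : QQ e J z s a = 0 := by
  unfold QQ
  refine Finset.sum_eq_zero fun n hn => ?_
  have h1 : sumL (n - s) (fun b => ind (Loop e (b ++ a))) = 0 := by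
    rw [← sumL_zero (D := D) (n - s)]
    refine sumL_congr fun b hb => ?_
    have h2 : b ≠ [] := by
      rintro rfl
      have := hJ n hn
      simp at hb
      omega
    unfold ind
    rw [if_neg fun h3 => h (h3.right h2)]
  rw [h1, mul_zero]

theorem NN_total (k : ℕ) : sumL k (NN e M z) = ∑ m ∈ M, z ^ m * cS e (m + k) := by
  unfold NN
  rw [sumL_sum]
  refine Finset.sum_congr rfl fun m _ => ?_
  rw [sumL_mul, sumL_swap]
  unfold cS
  rw [sumL_append]

/-- **The basic inequality.** -/
theorem core {J : Finset ℕ} {s : ℕ} (hz : 0 < z) (hs : 1 ≤ s)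
    (hJ : ∀ n ∈ J, s < n) (hJM : ∀ n ∈ J, ∀ k, 1 ≤ k → k ≤ s → n - k ∈ M) {X : ℝ} (hX : 0 < X)
    (hXk : ∀ k < s, ∑ m ∈ M, z ^ (m + k) * cS e (m + k) ≤ X)
    (hP : 0 < ∑ n ∈ J, z ^ n * LS e n) :
    (∑ n ∈ J, z ^ n * LS e n) / X *
      Real.exp (s * ((∑ n ∈ J, z ^ n * LS e n) / X / (Fintype.card D * z))) ≤
      Real.exp 1 * (z ^ s * cS e s) := by
  have hD : 0 < (Fintype.card D : ℝ) := by
    rcases Nat.eq_zero_or_pos (Fintype.card D) with h | h
    · exfalso
      have hE : IsEmpty D := Fintype.card_eq_zero_iff.1 h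
      have : ∀ n ∈ J, z ^ n * LS e n = 0 := by
        intro n hn
        have h1 : 0 < n := by have := hJ n hn; omega
        obtain ⟨n', rfl⟩ : ∃ n', n = n' + 1 := ⟨n - 1, by omega⟩
        unfold LS sumL
        rw [Finset.univ_eq_empty, Finset.sum_empty, mul_zero]
      rw [Finset.sum_eq_zero this] at hP
      exact lt_irrefl _ hP
    · exact_mod_cast h
  obtain ⟨P, hPe⟩ : ∃ P, P = ∑ n ∈ J, z ^ n * LS e n := ⟨_, rfl⟩
  obtain ⟨t, ht⟩ : ∃ t, t = P / X / (Fintype.card D * z) := ⟨_, rfl⟩
  rw [← hPe] at hP ⊢
  rw [← ht]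
  have ht0 : 0 < t := by rw [ht]; positivity
  have htX : t * (Fintype.card D * z * X) = P := by
    rw [ht]; field_simp
  have hQt : sumL s (QQ e J z s) = P := by rw [hPe]; exact QQ_total hJ
  have hN0 : NN e M z [] ≤ X := by
    have h1 := hXk 0 (by omega)
    have h2 := NN_total (e := e) (M := M) (z := z) 0
    simp only [sumL, add_zero] at h2 h1
    rw [h2]
    exact h1
  -- the reciprocal of the closing probabilities
  have hrec : ∀ k < s, sumL s (fun a => QQ e J z s a *
      (NN e M z (a.take (k + 1)).dropLast / PP e M z (a.take (k + 1)))) ≤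
      Fintype.card D * z * X := by
    intro k hk
    have h1 := sumL_append (k + 1) (s - (k + 1)) (fun a => QQ e J z s a *
      (NN e M z (a.take (k + 1)).dropLast / PP e M z (a.take (k + 1))))
    rw [show k + 1 + (s - (k + 1)) = s by omega] at h1
    rw [h1]
    have h2 : sumL (k + 1) (fun b => sumL (s - (k + 1)) (fun a => QQ e J z s (b ++ a) *
        (NN e M z ((b ++ a).take (k + 1)).dropLast / PP e M z ((b ++ a).take (k + 1))))) ≤
        sumL (k + 1) (fun b => z ^ (k + 1) * NN e M z b.dropLast) := by
      refine sumL_le fun b hb => ?_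
      have h3 : sumL (s - (k + 1)) (fun a => QQ e J z s (b ++ a) *
          (NN e M z ((b ++ a).take (k + 1)).dropLast / PP e M z ((b ++ a).take (k + 1)))) =
          sumL (s - (k + 1)) (fun a => (NN e M z b.dropLast / PP e M z b) *
            QQ e J z s (b ++ a)) := by
        refine sumL_congr fun a _ => ?_
        rw [show (b ++ a).take (k + 1) = b by rw [← hb]; exact List.take_left, mul_comm]
      rw [h3, sumL_mul]
      have h4 := (QQ_marg (e := e) hz.le hJ (k := k + 1) (by omega) b).trans
        (QQ_le_PP (e := e) hz.le (by omega) (by omega) hJ hJM b)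
      have h5 : 0 ≤ NN e M z b.dropLast / PP e M z b :=
        div_nonneg (NN_nonneg hz.le _) (PP_nonneg hz.le _)
      refine (mul_le_mul_of_nonneg_left h4 h5).trans ?_
      rcases (PP_nonneg (e := e) (M := M) hz.le b).eq_or_lt with h6 | h6
      · rw [← h6, div_zero, zero_mul]
        exact mul_nonneg (pow_nonneg hz.le _) (NN_nonneg hz.le _)
      · rw [show NN e M z b.dropLast / PP e M z b * (z ^ (k + 1) * PP e M z b) =
          z ^ (k + 1) * NN e M z b.dropLast by field_simp]
    refine h2.trans ?_
    rw [sumL_concat]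
    simp only [List.dropLast_concat, Finset.sum_const, Finset.card_univ, nsmul_eq_mul]
    rw [sumL_mul, sumL_mul, NN_total]
    have h7 := hXk k hk
    have h8 : z ^ k * ∑ m ∈ M, z ^ m * cS e (m + k) = ∑ m ∈ M, z ^ (m + k) * cS e (m + k) := by
      rw [Finset.mul_sum]
      refine Finset.sum_congr rfl fun m _ => ?_
      rw [pow_add]; ring
    calc (Fintype.card D : ℝ) * (z ^ (k + 1) * ∑ m ∈ M, z ^ m * cS e (m + k)) =
        Fintype.card D * z * (z ^ k * ∑ m ∈ M, z ^ m * cS e (m + k)) := by rw [pow_succ]; ring
      _ ≤ _ := by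
        rw [h8]
        exact mul_le_mul_of_nonneg_left h7 (by positivity)
  -- lower bound for the sum of the closing probabilities
  have hlow : t * s * P ≤ sumL s (fun a => QQ e J z s a * SQ e M z a) := by
    have h1 : sumL s (fun a => QQ e J z s a * ∑ k ∈ Finset.range s, (2 * t - t ^ 2 *
        (NN e M z (a.take (k + 1)).dropLast / PP e M z (a.take (k + 1))))) ≤
        sumL s (fun a => QQ e J z s a * SQ e M z a) := by
      refine sumL_le fun a ha => ?_
      unfold SQ
      rw [ha, Finset.mul_sum, Finset.mul_sum]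
      refine Finset.sum_le_sum fun k hk => ?_
      have hk' := Finset.mem_range.1 hk
      have hQ := QQ_nonneg (e := e) (J := J) hz.le s a
      have h2 : QQ e J z s a ≤ z ^ (k + 1) * PP e M z (a.take (k + 1)) := by
        have h3 := (QQ_marg (e := e) hz.le hJ (k := k + 1) (by omega) (a.take (k + 1))).trans
          (QQ_le_PP (e := e) hz.le (by omega) (by omega) hJ hJM (a.take (k + 1)))
        have h4 := single_le (n := s - (k + 1)) (f := fun c => QQ e J z s (a.take (k + 1) ++ c))
          (fun l => QQ_nonneg hz.le _ _) (a := a.drop (k + 1)) (by simp [ha])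
        rw [List.take_append_drop] at h4
        exact h4.trans h3
      rcases (PP_nonneg (e := e) (M := M) hz.le (a.take (k + 1))).eq_or_lt with h6 | h6
      · rw [← h6, mul_zero] at h2
        rw [le_antisymm h2 hQ, zero_mul, zero_mul]
      · refine mul_le_mul_of_nonneg_left ?_ hQ
        have h7 : a.take (k + 1) ≠ [] := by
          intro h
          have := congrArg List.length h
          rw [List.length_take, List.length_nil] at this
          omega
        have h8 := PP_le (e := e) (M := M) hz.le (a.take (k + 1)) h7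
        have h9 : 0 < NN e M z (a.take (k + 1)).dropLast := h6.trans_le h8
        unfold qq
        rw [sub_le_iff_le_add]
        have h10 : 0 ≤ (PP e M z (a.take (k + 1)) - t * NN e M z (a.take (k + 1)).dropLast) ^ 2 /
            (PP e M z (a.take (k + 1)) * NN e M z (a.take (k + 1)).dropLast) := by positivity
        have h11 : (PP e M z (a.take (k + 1)) - t * NN e M z (a.take (k + 1)).dropLast) ^ 2 /
            (PP e M z (a.take (k + 1)) * NN e M z (a.take (k + 1)).dropLast) =
            PP e M z (a.take (k + 1)) / NN e M z (a.take (k + 1)).dropLast + t ^ 2 *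
            (NN e M z (a.take (k + 1)).dropLast / PP e M z (a.take (k + 1))) - 2 * t := by
          field_simp
          ring
        linarith
    refine le_trans ?_ h1
    have h2 : sumL s (fun a => QQ e J z s a * ∑ k ∈ Finset.range s, (2 * t - t ^ 2 *
        (NN e M z (a.take (k + 1)).dropLast / PP e M z (a.take (k + 1))))) =
        ∑ k ∈ Finset.range s, (2 * t * P - t ^ 2 * sumL s (fun a => QQ e J z s a *
          (NN e M z (a.take (k + 1)).dropLast / PP e M z (a.take (k + 1))))) := by
      have h3 : ∀ a : List D, QQ e J z s a * ∑ k ∈ Finset.range s, (2 * t - t ^ 2 *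
          (NN e M z (a.take (k + 1)).dropLast / PP e M z (a.take (k + 1)))) =
          ∑ k ∈ Finset.range s, (2 * t * QQ e J z s a + (-t ^ 2) * (QQ e J z s a *
          (NN e M z (a.take (k + 1)).dropLast / PP e M z (a.take (k + 1))))) := by
        intro a
        rw [Finset.mul_sum]
        refine Finset.sum_congr rfl fun k _ => ?_
        ring
      rw [sumL_congr fun a _ => h3 a, sumL_sum]
      refine Finset.sum_congr rfl fun k _ => ?_
      rw [sumL_add, sumL_mul, sumL_mul, hQt]
      ring
    rw [h2]
    have h3 : ∑ k ∈ Finset.range s, (2 * t * P - t ^ 2 * (Fintype.card D * z * X)) ≤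
        ∑ k ∈ Finset.range s, (2 * t * P - t ^ 2 * sumL s (fun a => QQ e J z s a *
          (NN e M z (a.take (k + 1)).dropLast / PP e M z (a.take (k + 1))))) := by
      refine Finset.sum_le_sum fun k hk => ?_
      have := mul_le_mul_of_nonneg_left (hrec k (Finset.mem_range.1 hk)) (sq_nonneg t)
      linarith
    refine le_trans (le_of_eq ?_) h3
    rw [Finset.sum_const, Finset.card_range, nsmul_eq_mul]
    have : t ^ 2 * (Fintype.card D * z * X) = t * P := by rw [sq, mul_assoc, htX]
    rw [this]
    ring
  -- upper bound for the exponential moment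
  have hup : sumL s (fun a => QQ e J z s a * Real.exp (SQ e M z a)) ≤
      z ^ s * X * Real.exp 1 * cS e s := by
    unfold cS
    rw [← sumL_mul]
    refine sumL_le fun a ha => ?_
    by_cases hsaw : Saw e a
    · have h1 : ind (Saw e a) = 1 := by unfold ind; rw [if_pos hsaw]
      rw [h1, mul_one]
      have ha0 : a ≠ [] := by
        rintro rfl
        simp at ha
        omega
      have h2 : QQ e J z s a ≤ z ^ s * NN e M z a.dropLast :=
        (QQ_le_PP (e := e) hz.le le_rfl hs hJ hJM a).trans
          (mul_le_mul_of_nonneg_left (PP_le hz.le a ha0) (pow_nonneg hz.le _))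
      have h3 := NN_le (e := e) (M := M) hz.le a.dropLast
      have h4 : SQ e M z a ≤ SQ e M z a.dropLast + 1 := by
        obtain ⟨a', d, rfl⟩ := (List.eq_nil_or_concat a).resolve_left ha0
        rw [List.concat_eq_append, List.dropLast_concat, SQ_concat]
        have := qq_le_one (e := e) (M := M) hz.le (a' ++ [d]) (by simp)
        linarith
      have h5 : NN e M z a.dropLast ≤ X * Real.exp (-SQ e M z a.dropLast) :=
        h3.trans (mul_le_mul_of_nonneg_right hN0 (Real.exp_pos _).le)
      calc QQ e J z s a * Real.exp (SQ e M z a)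
          ≤ (z ^ s * (X * Real.exp (-SQ e M z a.dropLast))) *
            Real.exp (SQ e M z a.dropLast + 1) := by
            refine mul_le_mul ?_ (Real.exp_le_exp.2 h4) (Real.exp_pos _).le (by positivity)
            exact h2.trans (mul_le_mul_of_nonneg_left h5 (pow_nonneg hz.le _))
        _ = z ^ s * X * (Real.exp (-SQ e M z a.dropLast) * Real.exp (SQ e M z a.dropLast + 1)) := by
            ring
        _ = _ := by
            rw [← Real.exp_add]
            congr 2
            ring
    · rw [QQ_saw hJ a hsaw, zero_mul]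
      exact mul_nonneg (by positivity) (ind_nonneg _)
  -- conclusion
  have hfin : P * Real.exp (s * t) ≤ z ^ s * X * Real.exp 1 * cS e s := by
    refine le_trans ?_ hup
    have h1 : sumL s (fun a => Real.exp (s * t) * (1 - s * t) * QQ e J z s a +
        Real.exp (s * t) * (QQ e J z s a * SQ e M z a)) ≤
        sumL s (fun a => QQ e J z s a * Real.exp (SQ e M z a)) := by
      refine sumL_le fun a _ => ?_
      have h2 := Real.add_one_le_exp (SQ e M z a - s * t)
      have h3 : Real.exp (SQ e M z a) = Real.exp (s * t) * Real.exp (SQ e M z a - s * t) := by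
        rw [← Real.exp_add]; congr 1; ring
      rw [h3]
      have hQ := QQ_nonneg (e := e) (J := J) hz.le s a
      have h4 := mul_le_mul_of_nonneg_left h2 (mul_nonneg hQ (Real.exp_pos (s * t)).le)
      nlinarith
    rw [sumL_add, sumL_mul, sumL_mul, hQt] at h1
    refine le_trans ?_ h1
    have h2 := mul_le_mul_of_nonneg_left hlow (Real.exp_pos (s * t)).le
    nlinarith
  rw [div_mul_eq_mul_div, div_le_iff₀ hX]
  calc P * Real.exp (s * t) ≤ z ^ s * X * Real.exp 1 * cS e s := hfin
    _ = _ := by ring

end Pool.Agent.Helper17.CP
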