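import Pool.Agent.Helper17.CP.Ana

/-!
# Infinitely many lengths with a small closing probability
-/

set_option autoImplicit false

open Finset
open scoped Classical

namespace Pool.Agent.Helper17.CP

open Pool.Agent.H46R2.K3 (St V vec)
open Pool.Agent.H46R2.K3.P

/-- `c_n / μ^n` -/
noncomputable def b (n : ℕ) : ℝ := cS vec n / μ ^ n

/-- `L_n / μ^n` -/
noncomputable def bo (n : ℕ) : ℝ := LS vec n / μ ^ n

theorem one_le_b (n : ℕ) : 1 ≤ b n := by
  unfold b
  rw [one_le_div (pow_pos mu_pos n)]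
  exact cS_ge n

theorem bo_nonneg (n : ℕ) : 0 ≤ bo n := div_nonneg (LS_nonneg _ _) (pow_pos mu_pos n).le

theorem cS_b (n : ℕ) : cS vec n = b n * μ ^ n := by
  unfold b
  rw [div_mul_cancel₀ _ (pow_pos mu_pos n).ne']

theorem LS_bo (n : ℕ) : LS vec n = bo n * μ ^ n := by
  unfold bo
  rw [div_mul_cancel₀ _ (pow_pos mu_pos n).ne']

theorem b_succ (n : ℕ) : b (n + 1) ≤ 2 * b n := by
  have h1 : cS vec (n + 1) ≤ cS vec n * 6 := by
    rw [cS_eq, cS_eq]
    have h2 : TH966.KO.c (n + 1) ≤ TH966.KO.c n * TH966.KO.c 1 := TH966.KO.c_add n 1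
    have h3 : TH966.KO.c 1 ≤ 6 * 5 ^ 0 := TH966.KO.c_five 0
    have h4 : TH966.KO.c (n + 1) ≤ TH966.KO.c n * 6 := h2.trans (Nat.mul_le_mul_left _ h3)
    exact_mod_cast h4
  unfold b
  rw [div_le_iff₀ (pow_pos mu_pos _), pow_succ]
  have h5 : 2 * (cS vec n / μ ^ n) * (μ ^ n * μ) = 2 * cS vec n * μ := by
    have := (pow_pos mu_pos n).ne'
    field_simp
  rw [h5]
  have := cS_nonneg vec n
  nlinarith [mu_ge]

theorem windows_b {M : ℕ} (hM : 2 ≤ M) :
    ∑ n ∈ Finset.Ioc M (2 * M), bo n ≤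
      200 * (Real.log M / M) * ∑ n ∈ Finset.range (3 * M + 1), b n := by
  have h := windows (z := 1 / μ) (by have := mu_pos; positivity) le_rfl hM
  have e : ∀ x : ℝ, ∀ n : ℕ, x * (1 / μ) ^ n = x / μ ^ n := fun x n => by
    rw [one_div, inv_pow, div_eq_mul_inv]
  simp only [e] at h
  exact h

/-- growth of partial sums -/
noncomputable def g (j : ℕ) : ℝ := ∑ n ∈ Finset.range (2 ^ j + 1), b n

theorem g_lower (j : ℕ) : (2 : ℝ) ^ j ≤ g j := by
  unfold g
  calc (2 : ℝ) ^ j ≤ ∑ _n ∈ Finset.range (2 ^ j + 1), (1 : ℝ) := by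
        rw [Finset.sum_const, Finset.card_range, nsmul_eq_mul]
        push_cast
        linarith
    _ ≤ _ := Finset.sum_le_sum fun n _ => one_le_b n

theorem g_pos (j : ℕ) : 0 < g j := lt_of_lt_of_le (by positivity) (g_lower j)

theorem g_mono (j : ℕ) : g j ≤ g (j + 1) := by
  unfold g
  refine Finset.sum_le_sum_of_subset_of_nonneg ?_ fun n _ _ => by linarith [one_le_b n]
  intro n hn
  rw [Finset.mem_range] at *
  have : 2 ^ (j + 1) = 2 * 2 ^ j := by ring
  omega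

theorem g_upper {N0 : ℕ} (h : ∀ n, N0 ≤ n → b n < (n : ℝ) ^ 4) :
    ∃ C : ℝ, 0 < C ∧ ∀ j, g j ≤ C * 32 ^ j := by
  obtain ⟨C0, hC0⟩ : ∃ C0, C0 = ∑ n ∈ Finset.range N0, b n := ⟨_, rfl⟩
  have hC : 0 ≤ C0 := by
    rw [hC0]
    exact Finset.sum_nonneg fun n _ => by linarith [one_le_b n]
  refine ⟨2 * (C0 + 1), by positivity, fun j => ?_⟩
  have h1 : ∀ n ∈ Finset.range (2 ^ j + 1), b n ≤ C0 + ((2 : ℝ) ^ j) ^ 4 := by
    intro n hn
    rw [Finset.mem_range] at hn
    rcases lt_or_ge n N0 with h2 | h2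
    · have : b n ≤ C0 := by
        rw [hC0]
        exact Finset.single_le_sum (f := b) (fun n _ => by linarith [one_le_b n])
          (Finset.mem_range.2 h2)
      have h3 : (0 : ℝ) ≤ ((2 : ℝ) ^ j) ^ 4 := by positivity
      linarith
    · have h3 : (n : ℝ) ≤ 2 ^ j := by exact_mod_cast (show n ≤ 2 ^ j by omega)
      have h4 : (n : ℝ) ^ 4 ≤ ((2 : ℝ) ^ j) ^ 4 := pow_le_pow_left₀ (Nat.cast_nonneg _) h3 4
      linarith [h n h2]
  unfold g
  refine (Finset.sum_le_sum h1).trans ?_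
  rw [Finset.sum_const, Finset.card_range, nsmul_eq_mul]
  push_cast
  have h2 : (1 : ℝ) ≤ 2 ^ j := one_le_pow₀ (by norm_num)
  have h3 : (1 : ℝ) ≤ ((2 : ℝ) ^ j) ^ 4 := one_le_pow₀ h2
  have h4 : (32 : ℝ) ^ j = (2 ^ j) * ((2 : ℝ) ^ j) ^ 4 := by
    rw [← pow_mul, ← pow_add, show j + j * 4 = 5 * j by ring, pow_mul]
    norm_num
  rw [h4]
  have h5 : C0 + ((2 : ℝ) ^ j) ^ 4 ≤ (C0 + 1) * ((2 : ℝ) ^ j) ^ 4 := by nlinarith
  calc ((2 : ℝ) ^ j + 1) * (C0 + ((2 : ℝ) ^ j) ^ 4) ≤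
        (2 * 2 ^ j) * ((C0 + 1) * ((2 : ℝ) ^ j) ^ 4) :=
        mul_le_mul (by linarith) h5 (by positivity) (by positivity)
    _ = _ := by ring

theorem exists_scale {C : ℝ} (h : ∀ j, g j ≤ C * 32 ^ j) (J : ℕ) :
    ∃ j, J ≤ j ∧ g (j + 2) ≤ 192 * (g (j + 1) - g j) := by
  by_contra hcon
  push Not at hcon
  obtain ⟨j1, hj1, h1⟩ : ∃ j, J ≤ j ∧ 3 / 2 * g j ≤ g (j + 1) := by
    by_contra hc
    push Not at hc
    have h2 : ∀ i, g (J + i) ≤ (3 / 2) ^ i * g J := by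
      intro i
      induction i with
      | zero => simp
      | succ i ih =>
        have := hc (J + i) (by omega)
        rw [← add_assoc, pow_succ]
        linarith
    obtain ⟨i, hi⟩ := pow_unbounded_of_one_lt (g J / 2 ^ J) (show (1 : ℝ) < 4 / 3 by norm_num)
    have h3 := (g_lower (J + i)).trans (h2 i)
    have h4 : (4 / 3 : ℝ) ^ i * (3 / 2) ^ i = 2 ^ i := by
      rw [← mul_pow]; norm_num
    rw [div_lt_iff₀ (by positivity)] at hi
    rw [pow_add, ← h4] at h3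
    have h5 : (0 : ℝ) < (3 / 2) ^ i := by positivity
    have h6 : ((4 / 3 : ℝ) ^ i * 2 ^ J) * (3 / 2) ^ i ≤ g J * (3 / 2) ^ i := by
      calc ((4 / 3 : ℝ) ^ i * 2 ^ J) * (3 / 2) ^ i = 2 ^ J * ((4 / 3) ^ i * (3 / 2) ^ i) := by ring
        _ ≤ (3 / 2) ^ i * g J := h3
        _ = _ := by ring
    have h7 := le_of_mul_le_mul_right h6 h5
    linarith
  have h2 : ∀ i, 64 ^ i * g (j1 + 1) ≤ g (j1 + 1 + i) ∧
      3 / 2 * g (j1 + i) ≤ g (j1 + i + 1) := by
    intro i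
    induction i with
    | zero => simpa using h1
    | succ i ih =>
      obtain ⟨i1, i2⟩ := ih
      have h3 := hcon (j1 + i) (by omega)
      have h4 : 64 * g (j1 + i + 1) ≤ g (j1 + i + 2) := by linarith
      have e1 : j1 + 1 + i = j1 + i + 1 := by ring
      have e2 : j1 + 1 + (i + 1) = j1 + i + 2 := by ring
      have e3 : j1 + (i + 1) = j1 + i + 1 := by ring
      have e4 : j1 + i + 1 + 1 = j1 + i + 2 := by ring
      rw [e1] at i1
      rw [e2, e3, e4]
      refine ⟨?_, ?_⟩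
      · rw [pow_succ]
        linarith
      · linarith [g_pos (j1 + i + 1)]
  obtain ⟨i, hi⟩ := pow_unbounded_of_one_lt (C * 32 ^ (j1 + 1) / g (j1 + 1))
    (show (1 : ℝ) < 2 by norm_num)
  have h3 := (h2 i).1.trans (h (j1 + 1 + i))
  rw [div_lt_iff₀ (g_pos _)] at hi
  have h4 : (64 : ℝ) ^ i = 2 ^ i * 32 ^ i := by rw [← mul_pow]; norm_num
  rw [h4, pow_add] at h3
  have h5 : (0 : ℝ) < 32 ^ i := by positivity
  have h6 : (2 ^ i * g (j1 + 1)) * 32 ^ i ≤ (C * 32 ^ (j1 + 1)) * 32 ^ i := by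
    calc (2 ^ i * g (j1 + 1)) * 32 ^ i = 2 ^ i * 32 ^ i * g (j1 + 1) := by ring
      _ ≤ C * (32 ^ (j1 + 1) * 32 ^ i) := h3
      _ = _ := by ring
  have h7 := le_of_mul_le_mul_right h6 h5
  linarith

theorem sum_pairs (F : ℕ → ℝ) {a c : ℕ} (h : a ≤ c) :
    ∑ n ∈ Finset.Ioc (2 * a) (2 * c), F n = ∑ i ∈ Finset.Ico a c, (F (2 * i + 1) + F (2 * i + 2)) := by
  induction c, h using Nat.le_induction with
  | base => simp
  | succ c hc ih =>
    rw [Finset.sum_Ico_succ_top hc, ← ih, show 2 * (c + 1) = 2 * c + 1 + 1 by ring,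
      ← Finset.sum_Ioc_consecutive _ (show 2 * a ≤ 2 * c by omega) (show 2 * c ≤ 2 * c + 1 + 1 by omega)]
    congr 1
    rw [Finset.sum_Ioc_succ_top (by omega), Finset.sum_Ioc_succ_top (by omega)]
    simp

/-- **Infinitely many odd `n` with closing probability `O(log n / n)`.** -/
theorem infinitely_many : ∃ K : ℝ, ∀ N : ℕ, ∃ n, N ≤ n ∧ Odd n ∧
    LS vec (n + 1) ≤ K * (Real.log n / n) * cS vec n := by
  refine ⟨1152001, fun N => ?_⟩
  by_cases H : ∀ N : ℕ, ∃ n, N ≤ n ∧ (n : ℝ) ^ 4 ≤ b n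
  · -- many walks
    obtain ⟨n, hn, hb⟩ := H (N + 5)
    obtain ⟨m, hm1, hm2, hm3, hm4⟩ : ∃ m, Odd m ∧ N ≤ m ∧ 4 ≤ m ∧ (m : ℝ) ^ 4 / 2 ≤ b m := by
      rcases Nat.even_or_odd n with h | h
      · have h1 : Odd (n - 1) := by
          obtain ⟨k, hk⟩ := h
          exact ⟨k - 1, by omega⟩
        refine ⟨n - 1, h1, by omega, by omega, ?_⟩
        have h2 := b_succ (n - 1)
        rw [show n - 1 + 1 = n by omega] at h2
        have h3 : ((n - 1 : ℕ) : ℝ) ^ 4 ≤ (n : ℝ) ^ 4 :=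
          pow_le_pow_left₀ (Nat.cast_nonneg _) (by exact_mod_cast (show n - 1 ≤ n by omega)) 4
        linarith
      · refine ⟨n, h, by omega, by omega, ?_⟩
        have : (0 : ℝ) ≤ (n : ℝ) ^ 4 := by positivity
        linarith
    refine ⟨m, hm2, hm1, ?_⟩
    have hm0 : (4 : ℝ) ≤ m := by exact_mod_cast hm3
    have hlog : 1 ≤ Real.log m := by
      rw [Real.le_log_iff_exp_le (by linarith)]
      have := Real.exp_one_lt_d9
      linarith
    have h1 := LS_le (m + 1) (by omega)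
    have hμ := pow_pos mu_pos m
    have h2 : LS vec (m + 1) ≤ 1125 * (m : ℝ) ^ 2 * μ ^ m := by
      refine h1.trans ?_
      rw [show m + 1 + 2 = m + 3 by ring, pow_add]
      push_cast
      have h3 : ((m : ℝ) + 1 + 1) ^ 2 ≤ (3 * m) ^ 2 := pow_le_pow_left₀ (by positivity) (by linarith) 2
      have h4 : μ ^ 3 ≤ 5 ^ 3 := pow_le_pow_left₀ mu_pos.le mu_le 3
      calc ((m : ℝ) + 1 + 1) ^ 2 * (μ ^ m * μ ^ 3) ≤ (3 * m) ^ 2 * (μ ^ m * 5 ^ 3) :=
            mul_le_mul h3 (mul_le_mul_of_nonneg_left h4 hμ.le) (by have := mu_pos; positivity) (by positivity)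
        _ = _ := by ring
    rw [cS_b]
    refine h2.trans ?_
    rw [← mul_assoc]
    refine mul_le_mul_of_nonneg_right ?_ hμ.le
    have hm' : (0 : ℝ) < m := by linarith
    have h5 : 1152001 * (Real.log m / m) * ((m : ℝ) ^ 4 / 2) ≤ 1152001 * (Real.log m / m) * b m :=
      mul_le_mul_of_nonneg_left hm4 (by positivity)
    refine le_trans ?_ h5
    have h6 : 1152001 * (Real.log m / m) * ((m : ℝ) ^ 4 / 2) =
        1152001 / 2 * Real.log m * (m : ℝ) ^ 3 := by field_simp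
    rw [h6]
    have h7 : (m : ℝ) ^ 2 ≤ (m : ℝ) ^ 3 := pow_le_pow_right₀ (by linarith) (by norm_num)
    have h8 : (m : ℝ) ^ 3 ≤ Real.log m * (m : ℝ) ^ 3 := by
      have : (0 : ℝ) ≤ (m : ℝ) ^ 3 := by positivity
      nlinarith
    nlinarith
  · push Not at H
    obtain ⟨N0, hN0⟩ := H
    obtain ⟨C, _, hg⟩ := g_upper hN0
    obtain ⟨j, hj, hs⟩ := exists_scale hg (N + 2)
    by_contra hcon
    push Not at hcon
    obtain ⟨M, hM⟩ : ∃ M, M = 2 ^ j := ⟨_, rfl⟩
    obtain ⟨M', hM'⟩ : ∃ M', M' = 2 ^ (j - 1) := ⟨_, rfl⟩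
    have hMM : M = 2 * M' := by
      rw [hM, hM', ← pow_succ', show j - 1 + 1 = j by omega]
    have hjM : j < M := by rw [hM]; exact Nat.lt_two_pow_self
    have hM2 : 2 ≤ M := by omega
    have hM0 : (0 : ℝ) < M := by exact_mod_cast (show 0 < M by omega)
    have hw := windows_b hM2
    have h1 : ∑ n ∈ Finset.range (3 * M + 1), b n ≤ g (j + 2) := by
      unfold g
      refine Finset.sum_le_sum_of_subset_of_nonneg ?_ fun n _ _ => by linarith [one_le_b n]
      intro n hn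
      rw [Finset.mem_range] at *
      have : 2 ^ (j + 2) = 4 * M := by rw [hM]; ring
      omega
    have h2 : g (j + 1) - g j = ∑ n ∈ Finset.Ioc M (2 * M), b n := by
      unfold g
      rw [← hM, show 2 ^ (j + 1) = 2 * M by rw [hM]; ring]
      have hh := Finset.sum_Ico_consecutive b (show 0 ≤ M + 1 by omega)
        (show M + 1 ≤ 2 * M + 1 by omega)
      simp only [Finset.range_eq_Ico]
      rw [← hh, add_sub_cancel_left]
      refine Finset.sum_congr ?_ fun _ _ => rfl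
      ext n
      rw [Finset.mem_Ico, Finset.mem_Ioc]
      omega
    have hlog : 0 < Real.log M := Real.log_pos (by exact_mod_cast (show 1 < M by omega))
    have h3 : ∑ n ∈ Finset.Ioc M (2 * M), bo n ≤
        200 * (Real.log M / M) * (192 * ∑ n ∈ Finset.Ioc M (2 * M), b n) := by
      refine hw.trans (mul_le_mul_of_nonneg_left ?_ (by positivity))
      rw [← h2]
      exact h1.trans hs
    have hI : Finset.Ioc M (2 * M) = Finset.Ioc (2 * M') (2 * (2 * M')) := by rw [hMM]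
    rw [hI, sum_pairs bo (show M' ≤ 2 * M' by omega), sum_pairs b (show M' ≤ 2 * M' by omega)] at h3
    have h4 : ∀ i ∈ Finset.Ico M' (2 * M'), b (2 * i + 1) + b (2 * i + 2) ≤ 3 * b (2 * i + 1) := by
      intro i _
      have := b_succ (2 * i + 1)
      rw [show 2 * i + 1 + 1 = 2 * i + 2 by ring] at this
      linarith
    have h5 : ∀ i ∈ Finset.Ico M' (2 * M'),
        1152001 / 10 * (Real.log M / M) * b (2 * i + 1) ≤ bo (2 * i + 1) + bo (2 * i + 2) := by
      intro i hi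
      rw [Finset.mem_Ico] at hi
      have h6 := hcon (2 * i + 1) (by omega) ⟨i, rfl⟩
      rw [LS_bo, cS_b, show 2 * i + 1 + 1 = (2 * i + 1) + 1 by rfl, pow_succ] at h6
      have hμ := pow_pos mu_pos (2 * i + 1)
      have h7 : 1152001 * (Real.log ((2 * i + 1 : ℕ) : ℝ) / ((2 * i + 1 : ℕ) : ℝ)) * b (2 * i + 1) <
          bo (2 * i + 1 + 1) * μ := by
        have h8 : (1152001 * (Real.log ((2 * i + 1 : ℕ) : ℝ) / ((2 * i + 1 : ℕ) : ℝ)) * b (2 * i + 1)) *
            μ ^ (2 * i + 1) < (bo (2 * i + 1 + 1) * μ) * μ ^ (2 * i + 1) := by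
          calc _ = 1152001 * (Real.log ((2 * i + 1 : ℕ) : ℝ) / ((2 * i + 1 : ℕ) : ℝ)) *
                (b (2 * i + 1) * μ ^ (2 * i + 1)) := by ring
            _ < _ := h6
            _ = _ := by ring
        exact lt_of_mul_lt_mul_right h8 hμ.le
      have h9 : Real.log M / (2 * M) ≤ Real.log ((2 * i + 1 : ℕ) : ℝ) / ((2 * i + 1 : ℕ) : ℝ) := by
        have h10 : (M : ℝ) ≤ ((2 * i + 1 : ℕ) : ℝ) := by exact_mod_cast (show M ≤ 2 * i + 1 by omega)
        have h11 : ((2 * i + 1 : ℕ) : ℝ) ≤ 2 * M := by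
          exact_mod_cast (show 2 * i + 1 ≤ 2 * M by omega)
        refine div_le_div₀ (Real.log_nonneg ?_) (Real.log_le_log hM0 h10) (by linarith) h11
        have : (2 : ℝ) ≤ M := by exact_mod_cast hM2
        linarith
      have hb := one_le_b (2 * i + 1)
      have h12 : bo (2 * i + 1 + 1) * μ ≤ bo (2 * i + 1 + 1) * 5 :=
        mul_le_mul_of_nonneg_left mu_le (bo_nonneg _)
      have h13 : 1152001 * (Real.log M / (2 * M)) * b (2 * i + 1) ≤
          1152001 * (Real.log ((2 * i + 1 : ℕ) : ℝ) / ((2 * i + 1 : ℕ) : ℝ)) * b (2 * i + 1) :=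
        mul_le_mul_of_nonneg_right (mul_le_mul_of_nonneg_left h9 (by norm_num)) (by linarith)
      have h14 := bo_nonneg (2 * i + 1)
      have h15 : 1152001 * (Real.log M / (2 * M)) * b (2 * i + 1) =
          5 * (1152001 / 10 * (Real.log M / M) * b (2 * i + 1)) := by
        field_simp
        ring
      rw [show 2 * i + 2 = 2 * i + 1 + 1 by ring]
      linarith
    have h6 := Finset.sum_le_sum h5
    have h7 := Finset.sum_le_sum h4
    rw [← Finset.mul_sum] at h6 h7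
    obtain ⟨S, hS⟩ : ∃ S, S = ∑ i ∈ Finset.Ico M' (2 * M'), b (2 * i + 1) := ⟨_, rfl⟩
    rw [← hS] at h6 h7
    have hS0 : 0 < S := by
      rw [hS]
      refine Finset.sum_pos (fun i _ => by linarith [one_le_b (2 * i + 1)]) ?_
      exact ⟨M', by rw [Finset.mem_Ico]; omega⟩
    have h8 : 200 * (Real.log M / M) * (192 * ∑ i ∈ Finset.Ico M' (2 * M'),
        (b (2 * i + 1) + b (2 * i + 2))) ≤ 200 * (Real.log M / M) * (192 * (3 * S)) :=
      mul_le_mul_of_nonneg_left (by linarith) (by positivity)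
    have h9 := h6.trans (h3.trans h8)
    have h10 : 0 < Real.log M / M * S := by positivity
    nlinarith

end Pool.Agent.Helper17.CP
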