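import Pool.Agent.Helper17.CP.Series
import Pool.Agent.Helper17.SW.Uni

/-!
# A small closing probability in every interval
-/

set_option autoImplicit false

open Finset
open scoped Classical

namespace Pool.Agent.Helper17.CP

open Pool.Agent.H46R2.K3 (St V vec)
open Pool.Agent.H46R2.K3.P

/-- **Small closing probability in every interval, general form.** -/
theorem local_general {N H s K : ℕ} {Φ : ℝ} (hN : 10 ^ 9 ≤ N) (hs4 : 1 ≤ s) (hΦ : 0 ≤ Φ)
    (hbΦ : b (2 * s) ≤ Real.exp Φ) (hK : K = ⌈10 * Real.log N⌉₊ + 1) (hH : (K + 1) * s ≤ H)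
    (hHN : 2 * (H + K * s) ≤ N) : ∃ n : ℕ, 2 * (H - K * s) ≤ n ∧ n ≤ 2 * (H + K * s) ∧
    Odd n ∧ LS vec (n + 1) ≤ 30 * (1 + Φ + Real.log N) / s * cS vec n := by
  by_contra hcon
  push Not at hcon
  have hN0 : (10 : ℝ) ^ 9 ≤ N := by exact_mod_cast hN
  have hNp : (0 : ℝ) < N := by linarith [show (0 : ℝ) < 10 ^ 9 by norm_num]
  obtain ⟨l, hl⟩ : ∃ l, l = Real.log N := ⟨_, rfl⟩
  rw [← hl] at hcon
  have hl20 : 20 ≤ l := by
    rw [hl, Real.le_log_iff_exp_le hNp]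
    refine le_trans ?_ hN0
    have h1 : Real.exp 20 = Real.exp 1 ^ 20 := by rw [← Real.exp_nat_mul]; norm_num
    rw [h1]
    refine (pow_le_pow_left₀ (Real.exp_pos _).le Real.exp_one_lt_d9.le 20).trans ?_
    norm_num
  rw [← hl] at hK
  have hK1 : 10 * l + 1 ≤ K := by
    rw [hK]
    push_cast
    linarith [Nat.le_ceil (10 * l)]
  have hKp : 0 < K := by omega
  have hKs : 1 * s ≤ K * s := Nat.mul_le_mul_right _ hKp
  have hKs1 : (K + 1) * s = K * s + s := by ring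
  have hsN : 2 * s ≤ N := by omega
  have hsp : (0 : ℝ) < s := by exact_mod_cast hs4
  obtain ⟨β, hβ⟩ : ∃ β, β = 30 * (1 + Φ + l) / s := ⟨_, rfl⟩
  rw [← hβ] at hcon
  have hβ0 : 1 / N ≤ β := by
    rw [hβ]
    have h1 : (s : ℝ) ≤ N := by exact_mod_cast (show s ≤ N by omega)
    exact div_le_div₀ (by linarith) (by linarith) hsp h1
  have hβp : 0 < β := lt_of_lt_of_le (by positivity) hβ0
  have hbad : ∀ n : ℕ, 2 * (H - K * s) ≤ n → n ≤ 2 * (H + K * s) → Odd n →
      β * b n < bo (n + 1) * μ := by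
    intro n h1 h2 h3
    have h4 := hcon n h1 h2 h3
    rw [LS_bo, cS_b, pow_succ] at h4
    have hμ := pow_pos mu_pos n
    have h8 : (β * b n) * μ ^ n < (bo (n + 1) * μ) * μ ^ n := by
      calc _ = β * (b n * μ ^ n) := by ring
        _ < _ := h4
        _ = _ := by ring
    exact lt_of_mul_lt_mul_right h8 hμ.le
  have hbo : ∀ n : ℕ, 2 * (H - K * s) ≤ n → n ≤ 2 * (H + K * s) → Odd n →
      b n ≤ 1125 * (N : ℝ) ^ 3 := by
    intro n h1 h2 h3
    have h4 := hbad n h1 h2 h3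
    have h5 : bo (n + 1) * μ ^ (n + 1) ≤ (((n + 1 : ℕ) : ℝ) + 1) ^ 2 * μ ^ 2 * μ ^ (n + 1) := by
      rw [← LS_bo]
      refine (LS_le (n + 1) (by omega)).trans (le_of_eq ?_)
      rw [pow_add μ (n + 1) 2]
      ring
    have h6 := le_of_mul_le_mul_right h5 (pow_pos mu_pos (n + 1))
    push_cast at h6
    have h7 : (n : ℝ) ≤ N := by exact_mod_cast h2.trans hHN
    have h8 : ((n : ℝ) + 1 + 1) ^ 2 ≤ (3 * N) ^ 2 := pow_le_pow_left₀ (by positivity) (by linarith) 2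
    have h9 : μ ^ 2 ≤ 5 ^ 2 := pow_le_pow_left₀ mu_pos.le mu_le 2
    have h10 : bo (n + 1) ≤ (3 * N) ^ 2 * 5 ^ 2 :=
      h6.trans (mul_le_mul h8 h9 (by positivity) (by positivity))
    have h11 : bo (n + 1) * μ ≤ ((3 * N) ^ 2 * 5 ^ 2) * 5 :=
      mul_le_mul h10 mu_le mu_pos.le (by positivity)
    have hb := one_le_b n
    have h12 : 1 / N * b n ≤ β * b n := mul_le_mul_of_nonneg_right hβ0 (by linarith)
    have h13 : 1 / N * b n ≤ ((3 * N) ^ 2 * 5 ^ 2) * 5 := by linarith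
    rw [one_div, inv_mul_le_iff₀ hNp] at h13
    refine h13.trans (le_of_eq ?_)
    ring
  have hball : ∀ n : ℕ, 2 * (H - K * s) < n → n ≤ 2 * (H + K * s) →
      b n ≤ 2250 * (N : ℝ) ^ 3 := by
    intro n h1 h2
    have hN3 : (0 : ℝ) ≤ (N : ℝ) ^ 3 := by positivity
    rcases Nat.even_or_odd n with h | h
    · have h3 : Odd (n - 1) := by
        obtain ⟨k, hk⟩ := h
        exact ⟨k - 1, by omega⟩
      have h4 := b_succ (n - 1)
      rw [show n - 1 + 1 = n by omega] at h4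
      have h5 := hbo (n - 1) (by omega) (by omega) h3
      linarith
    · have := hbo n (by omega) h2 h
      linarith
  -- the windows
  obtain ⟨Xw, hXw⟩ : ∃ Xw : ℕ → ℝ, Xw = fun k =>
    ∑ n ∈ Finset.Ioc (2 * (H - k * s)) (2 * (H + k * s)), b n := ⟨_, rfl⟩
  have hks : ∀ k, k ≤ K → k * s ≤ K * s := fun k hk => Nat.mul_le_mul_right _ hk
  have hX0 : ∀ k, 1 ≤ k → k ≤ K → 1 ≤ Xw k := by
    intro k hk hkK
    have h0 := hks k hkK
    rw [hXw]
    have h1 : 2 * (H + k * s) ∈ Finset.Ioc (2 * (H - k * s)) (2 * (H + k * s)) := by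
      rw [Finset.mem_Ioc]
      have : 1 * 1 ≤ k * s := Nat.mul_le_mul hk hs4
      omega
    exact (one_le_b _).trans (Finset.single_le_sum (f := b)
      (fun n _ => by linarith [one_le_b n]) h1)
  have hstep : ∀ k, 1 ≤ k → k + 1 ≤ K → 2 * Xw k ≤ Xw (k + 1) := by
    intro k hk hkK
    have h0 := hks (k + 1) hkK
    have h00 : (k + 1) * s = k * s + s := by ring
    obtain ⟨P, hP⟩ : ∃ P, P = ∑ n ∈ Finset.Ioc (2 * (H - k * s)) (2 * (H + k * s)), bo n :=
      ⟨_, rfl⟩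
    have hX1 := hX0 (k + 1) (by omega) hkK
    have hXk := hX0 k hk (by omega)
    -- lower bound
    have hPl : β / 15 * Xw k ≤ P := by
      rw [hP, hXw]
      simp only
      rw [sum_pairs bo (show H - k * s ≤ H + k * s by omega),
        sum_pairs b (show H - k * s ≤ H + k * s by omega), Finset.mul_sum]
      refine Finset.sum_le_sum fun i hi => ?_
      rw [Finset.mem_Ico] at hi
      have h1 := hbad (2 * i + 1) (by omega) (by omega) ⟨i, rfl⟩
      have h2 := b_succ (2 * i + 1)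
      rw [show 2 * i + 1 + 1 = 2 * i + 2 by ring] at h1 h2
      have h3 : bo (2 * i + 2) * μ ≤ bo (2 * i + 2) * 5 :=
        mul_le_mul_of_nonneg_left mu_le (bo_nonneg _)
      have h4 := bo_nonneg (2 * i + 1)
      have h5 : β / 15 * (b (2 * i + 1) + b (2 * i + 2)) ≤ β / 15 * (3 * b (2 * i + 1)) :=
        mul_le_mul_of_nonneg_left (by linarith) (by positivity)
      linarith
    have hP0 : 0 < P := lt_of_lt_of_le (by positivity) hPl
    have hloc := localIneq (A := 2 * (H - (k + 1) * s)) (B := 2 * (H + k * s)) (s := 2 * s)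
      (P := P) (X := Xw (k + 1)) (by omega) (by omega)
      (by rw [hP, show 2 * (H - (k + 1) * s) + 2 * s = 2 * (H - k * s) by omega])
      (by rw [hXw]; simp only; rw [show 2 * (H + (k + 1) * s) = 2 * (H + k * s) + 2 * s by omega])
      hP0 (by linarith)
    obtain ⟨κ, hκ⟩ : ∃ κ, κ = P / Xw (k + 1) := ⟨_, rfl⟩
    have hκ0 : 0 < κ := by rw [hκ]; exact div_pos hP0 (by linarith)
    have hPκ : P = κ * Xw (k + 1) := by
      rw [hκ, div_mul_cancel₀]
      exact (by linarith : (0 : ℝ) < Xw (k + 1)).ne'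
    rw [← hκ] at hloc
    push_cast at hloc
    have hκs : κ * (2 * s) ≤ 2 * (1 + Φ + l) := by
      rcases le_or_gt (κ * N) 1 with h1 | h1
      · have h2 : (2 * s : ℝ) ≤ N := by exact_mod_cast hsN
        have := mul_le_mul_of_nonneg_left h2 hκ0.le
        linarith
      · have h2 : Real.exp (2 * s * κ / 2) ≤ Real.exp (1 + Φ + l) := by
          have h3 : κ * Real.exp (2 * s * κ / 2) ≤ Real.exp 1 * Real.exp Φ :=
            hloc.trans (mul_le_mul_of_nonneg_left hbΦ (Real.exp_pos _).le)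
          have h4 := mul_le_mul_of_nonneg_left h3 hNp.le
          have h5 : 1 * Real.exp (2 * s * κ / 2) ≤ (κ * N) * Real.exp (2 * s * κ / 2) :=
            mul_le_mul_of_nonneg_right h1.le (Real.exp_pos _).le
          have h6 : Real.exp l = N := by rw [hl, Real.exp_log hNp]
          calc Real.exp (2 * s * κ / 2) ≤ (κ * N) * Real.exp (2 * s * κ / 2) := by linarith
            _ = N * (κ * Real.exp (2 * s * κ / 2)) := by ring
            _ ≤ N * (Real.exp 1 * Real.exp Φ) := h4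
            _ = _ := by rw [Real.exp_add, Real.exp_add, h6]; ring
        have h3 := Real.exp_le_exp.1 h2
        linarith
    -- conclusion
    have h1 : β / 15 * Xw k ≤ κ * Xw (k + 1) := hPl.trans hPκ.le
    have h2 : β * (2 * s) = 60 * (1 + Φ + l) := by
      rw [hβ]
      field_simp
      ring
    have h3 : (β / 15 * Xw k) * (2 * s) ≤ (κ * Xw (k + 1)) * (2 * s) :=
      mul_le_mul_of_nonneg_right h1 (by positivity)
    have h5 : (κ * (2 * s)) * Xw (k + 1) ≤ (2 * (1 + Φ + l)) * Xw (k + 1) :=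
      mul_le_mul_of_nonneg_right hκs (by linarith)
    have h6 : (2 * (1 + Φ + l)) * (2 * Xw k) ≤ (2 * (1 + Φ + l)) * Xw (k + 1) := by
      calc (2 * (1 + Φ + l)) * (2 * Xw k) = (60 * (1 + Φ + l)) * (Xw k / 15) := by ring
        _ = (β * (2 * s)) * (Xw k / 15) := by rw [h2]
        _ = (β / 15 * Xw k) * (2 * s) := by ring
        _ ≤ (κ * Xw (k + 1)) * (2 * s) := h3
        _ = (κ * (2 * s)) * Xw (k + 1) := by ring
        _ ≤ _ := h5
    exact le_of_mul_le_mul_left h6 (by linarith)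
  have hgrow : ∀ k, k + 1 ≤ K → (2 : ℝ) ^ k ≤ Xw (k + 1) := by
    intro k
    induction k with
    | zero => intro h; rw [pow_zero]; exact hX0 1 le_rfl h
    | succ k ih =>
      intro h
      have h1 := ih (by omega)
      have h2 := hstep (k + 1) (by omega) h
      rw [pow_succ]
      linarith
  have hfin := hgrow (K - 1) (by omega)
  rw [show K - 1 + 1 = K by omega] at hfin
  have hup : Xw K ≤ 2250 * (N : ℝ) ^ 4 := by
    rw [hXw]
    simp only
    have h1 : ∀ n ∈ Finset.Ioc (2 * (H - K * s)) (2 * (H + K * s)), b n ≤ 2250 * (N : ℝ) ^ 3 := by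
      intro n hn
      rw [Finset.mem_Ioc] at hn
      have : 1 * s ≤ K * s := Nat.mul_le_mul_right _ hKp
      exact hball n hn.1 hn.2
    refine (Finset.sum_le_sum h1).trans ?_
    rw [Finset.sum_const, Nat.card_Ioc, nsmul_eq_mul]
    have h2 : ((2 * (H + K * s) - 2 * (H - K * s) : ℕ) : ℝ) ≤ N := by
      exact_mod_cast (show 2 * (H + K * s) - 2 * (H - K * s) ≤ N by omega)
    calc ((2 * (H + K * s) - 2 * (H - K * s) : ℕ) : ℝ) * (2250 * (N : ℝ) ^ 3) ≤
          N * (2250 * (N : ℝ) ^ 3) := mul_le_mul_of_nonneg_right h2 (by positivity)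
      _ = _ := by ring
  have h1 := Real.log_le_log (by positivity) (hfin.trans hup)
  rw [Real.log_pow, Real.log_mul (by norm_num) (by positivity), Real.log_pow, ← hl] at h1
  have h4 : Real.log 2250 ≤ 8 := by
    rw [Real.log_le_iff_le_exp (by norm_num)]
    have h5 : Real.exp 8 = Real.exp 1 ^ 8 := by rw [← Real.exp_nat_mul]; norm_num
    rw [h5]
    refine le_trans ?_ (pow_le_pow_left₀ (by norm_num) Real.exp_one_gt_d9.le 8)
    norm_num
  have h5 : (10 * l : ℝ) ≤ ((K - 1 : ℕ) : ℝ) := by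
    rw [Nat.cast_sub (by omega)]
    push_cast
    linarith
  have h6 := Real.log_two_gt_d9
  have h7 : (10 * l) * 0.69 ≤ ((K - 1 : ℕ) : ℝ) * Real.log 2 :=
    mul_le_mul h5 (by linarith) (by norm_num) (Nat.cast_nonneg _)
  push_cast at h1
  linarith


/-- **Small closing probability in every interval.** -/
theorem every_interval {ε : ℝ} (hε : 0 < ε) : ∃ C : ℝ, 0 < C ∧ ∀ N s A : ℕ, 10 ^ 9 ≤ N → 1 ≤ s →
    2 * s ≤ A → (A : ℝ) + 50 * s * Real.log N ≤ N → ∃ n : ℕ, A ≤ n ∧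
      (n : ℝ) ≤ A + 50 * s * Real.log N ∧ Odd n ∧
      LS vec (n + 1) ≤ C * (((s : ℝ) ^ (1 / 3 + ε) + Real.log N) / s) * cS vec n := by
  obtain ⟨K, K₁, hK, hK₁, -, h2, -, -⟩ := Pool.Agent.Helper17.SW.engine
  obtain ⟨C, hC, hpsi⟩ := Pool.Agent.Helper17.SW.psi3_pow K ε hK hε
  obtain ⟨C', hC'⟩ : ∃ C', C' = 60 * (K₁ * C * 2 ^ (1 / 3 + ε) + 1) := ⟨_, rfl⟩
  have h20 : (0 : ℝ) < 2 ^ (1 / 3 + ε) := by positivity
  refine ⟨C', by rw [hC']; positivity, fun N s A hN hs hA hAN => ?_⟩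
  have hN0 : (10 : ℝ) ^ 9 ≤ N := by exact_mod_cast hN
  have hNp : (0 : ℝ) < N := by linarith [show (0 : ℝ) < 10 ^ 9 by norm_num]
  obtain ⟨l, hl⟩ : ∃ l, l = Real.log N := ⟨_, rfl⟩
  have hl20 : 20 ≤ l := by
    rw [hl, Real.le_log_iff_exp_le hNp]
    refine le_trans ?_ hN0
    have h1 : Real.exp 20 = Real.exp 1 ^ 20 := by rw [← Real.exp_nat_mul]; norm_num
    rw [h1]
    refine (pow_le_pow_left₀ (Real.exp_pos _).le Real.exp_one_lt_d9.le 20).trans ?_
    norm_num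
  have hs1 : (1 : ℝ) ≤ s := by exact_mod_cast hs
  obtain ⟨k, hk⟩ : ∃ k, k = ⌈10 * Real.log N⌉₊ + 1 := ⟨_, rfl⟩
  have hk2 : (k : ℝ) ≤ 11 * l := by
    rw [hk, ← hl]
    push_cast
    have := Nat.ceil_lt_add_one (show 0 ≤ 10 * l by linarith)
    linarith
  obtain ⟨Φ, hΦ⟩ : ∃ Φ, Φ = K₁ * Pool.Agent.N929.EG.psi3 K (2 * s) := ⟨_, rfl⟩
  have hΦ0 : 0 ≤ Φ := by
    rw [hΦ]
    exact mul_nonneg (by linarith) (Pool.Agent.N929.EG.psi3_nonneg _ _)
  have hbΦ : b (2 * s) ≤ Real.exp Φ := by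
    have h3 : (TH966.KO.c (2 * s) : ℝ) ≤ TH966.KO.μ ^ (2 * s) *
        Real.exp (K₁ * Pool.Agent.N929.EG.psi3 K (2 * s)) := h2 (2 * s) (by omega)
    have h4 : cS vec (2 * s) = (TH966.KO.c (2 * s) : ℝ) := cS_eq (2 * s)
    have h5 : (μ : ℝ) = TH966.KO.μ := rfl
    have h6 : b (2 * s) = cS vec (2 * s) / μ ^ (2 * s) := rfl
    rw [h6, h4, h5, hΦ, div_le_iff₀ (h5 ▸ pow_pos mu_pos _)]
    linarith
  have hΦ1 : Φ ≤ K₁ * C * 2 ^ (1 / 3 + ε) * (s : ℝ) ^ (1 / 3 + ε) := by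
    have h3 := hpsi (2 * s) (by omega)
    push_cast at h3
    rw [Real.mul_rpow (by norm_num) (by linarith)] at h3
    rw [hΦ]
    calc K₁ * Pool.Agent.N929.EG.psi3 K (2 * s) ≤
          K₁ * (C * (2 ^ (1 / 3 + ε) * (s : ℝ) ^ (1 / 3 + ε))) :=
          mul_le_mul_of_nonneg_left h3 (by linarith)
      _ = _ := by ring
  obtain ⟨a, ha⟩ : ∃ a, a = (A + 1) / 2 := ⟨_, rfl⟩
  have hup : (2 * (a + 2 * (k * s)) : ℝ) ≤ A + 50 * s * l := by
    have h3 : (2 * a : ℝ) ≤ A + 1 := by exact_mod_cast (show 2 * a ≤ A + 1 by omega)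
    have h4 : (k : ℝ) * s ≤ 11 * l * s := mul_le_mul_of_nonneg_right hk2 (by linarith)
    have h5 : 1 * 20 ≤ (s : ℝ) * l := mul_le_mul hs1 hl20 (by norm_num) (by linarith)
    linarith
  obtain ⟨n, h3, h4, h5, h6⟩ := local_general (N := N) (H := a + k * s) (s := s) (K := k) hN hs
    hΦ0 hbΦ hk
    (by
      have : (k + 1) * s = k * s + s := by ring
      omega)
    (by
      have h7 : (2 * (a + 2 * (k * s)) : ℝ) ≤ N := by rw [← hl] at hAN; linarith
      have h8 : 2 * (a + 2 * (k * s)) ≤ N := by exact_mod_cast h7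
      omega)
  refine ⟨n, by omega, ?_, h5, ?_⟩
  · have h7 : (n : ℝ) ≤ 2 * (a + 2 * (k * s)) := by
      exact_mod_cast (show n ≤ 2 * (a + 2 * (k * s)) by omega)
    rw [← hl]
    linarith
  · refine h6.trans (mul_le_mul_of_nonneg_right ?_ (cS_nonneg _ _))
    rw [← mul_div_assoc]
    refine div_le_div_of_nonneg_right ?_ (by linarith)
    rw [← hl, hC']
    have h7 : (0 : ℝ) ≤ (s : ℝ) ^ (1 / 3 + ε) := by positivity
    have h8 : 0 ≤ K₁ * C * 2 ^ (1 / 3 + ε) := by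
      have : 0 ≤ K₁ := by linarith
      positivity
    nlinarith

end Pool.Agent.Helper17.CP
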