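import Pool.Agent.Helper17.CP.Inf

/-!
# A length with a small closing probability on every scale
-/

set_option autoImplicit false

open Finset
open scoped Classical

namespace Pool.Agent.Helper17.CP

open Pool.Agent.H46R2.K3 (St V vec)
open Pool.Agent.H46R2.K3.P

theorem pow_b (n : ℕ) : (1 / μ) ^ n * cS vec n = b n := by
  unfold b
  rw [one_div, inv_pow, div_eq_mul_inv, mul_comm]

theorem pow_bo (n : ℕ) : (1 / μ) ^ n * LS vec n = bo n := by
  unfold bo
  rw [one_div, inv_pow, div_eq_mul_inv, mul_comm]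

/-- the local form of the inequality -/
theorem localIneq {A B s : ℕ} (hs : 1 ≤ s) (hA : s ≤ A) {P X : ℝ}
    (hP : P = ∑ n ∈ Finset.Ioc (A + s) B, bo n) (hX : X = ∑ n ∈ Finset.Ioc A (B + s), b n)
    (hP0 : 0 < P) (hX0 : 0 < X) :
    P / X * Real.exp (s * (P / X) / 2) ≤ Real.exp 1 * b s := by
  have hz : 0 < 1 / μ := by have := mu_pos; positivity
  have e1 : ∑ n ∈ Finset.Ioc (A + s) B, (1 / μ) ^ n * LS vec n = P := by
    rw [hP]; exact Finset.sum_congr rfl fun n _ => pow_bo n
  have hcore := core (e := vec) (M := Finset.Ioc A B) (J := Finset.Ioc (A + s) B)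
    (s := s) hz hs (fun n hn => by have := (Finset.mem_Ioc.1 hn).1; omega)
    (fun n hn k hk1 hk2 => by
      have := Finset.mem_Ioc.1 hn
      rw [Finset.mem_Ioc]; omega) hX0
    (fun k hk => by
      rw [hX]
      have h1 : ∑ m ∈ Finset.Ioc A B, (1 / μ) ^ (m + k) * cS vec (m + k) =
          ∑ n ∈ (Finset.Ioc A B).image (fun m => m + k), b n := by
        rw [Finset.sum_image]
        · exact Finset.sum_congr rfl fun m _ => pow_b _
        · intro x _ y _ h
          simp only at h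
          omega
      rw [h1]
      refine Finset.sum_le_sum_of_subset_of_nonneg ?_ fun n _ _ => by linarith [one_le_b n]
      intro n hn
      obtain ⟨m, hm, rfl⟩ := Finset.mem_image.1 hn
      rw [Finset.mem_Ioc] at hm ⊢
      omega) (by rw [e1]; exact hP0)
  rw [e1, card_St, pow_b] at hcore
  refine le_trans ?_ hcore
  have hκ : 0 < P / X := by positivity
  refine mul_le_mul_of_nonneg_left (Real.exp_le_exp.2 ?_) hκ.le
  rw [mul_div_assoc]
  refine mul_le_mul_of_nonneg_left ?_ (Nat.cast_nonneg _)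
  refine div_le_div_of_nonneg_left hκ.le (by positivity) ?_
  rw [mul_one_div, div_le_iff₀ mu_pos]
  linarith [mu_ge]

/-- **Small closing probability on every scale.** -/
theorem every_scale {N : ℕ} (hN : 10 ^ 9 ≤ N) : ∃ n : ℕ, (N : ℝ) / (176 * Real.log N) ≤ n ∧ n ≤ N ∧
    Odd n ∧ LS vec (n + 1) ≤ 52800 * Real.log N ^ 2 / N * cS vec n := by
  by_contra hcon
  push Not at hcon
  have hN0 : (10 : ℝ) ^ 9 ≤ N := by exact_mod_cast hN
  have hNp : (0 : ℝ) < N := by linarith [show (0 : ℝ) < 10 ^ 9 by norm_num]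
  obtain ⟨l, hl⟩ : ∃ l, l = Real.log N := ⟨_, rfl⟩
  rw [← hl] at hcon
  have hl20 : 20 ≤ l := by
    rw [hl, Real.le_log_iff_exp_le hNp]
    refine le_trans ?_ hN0
    have h1 : Real.exp 20 = Real.exp 1 ^ 20 := by rw [← Real.exp_nat_mul]; norm_num
    rw [h1]
    refine (pow_le_pow_left₀ (Real.exp_pos _).le Real.exp_one_lt_d9.le 20).trans ?_
    norm_num
  have hlsq : l ≤ 2 * Real.sqrt N := by
    have h1 : l = 2 * Real.log (Real.sqrt N) := by
      rw [hl, Real.log_sqrt hNp.le]; ring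
    have h2 := Real.log_le_sub_one_of_pos (Real.sqrt_pos.2 hNp)
    linarith
  have hsq : 31000 ≤ Real.sqrt N := by
    refine Real.le_sqrt_of_sq_le ?_
    refine le_trans ?_ hN0
    norm_num
  have hsqN : Real.sqrt N * Real.sqrt N = N := Real.mul_self_sqrt hNp.le
  have hNl : 1000 * l ≤ N := by nlinarith
  obtain ⟨K, hK⟩ : ∃ K, K = ⌈10 * l⌉₊ + 1 := ⟨_, rfl⟩
  have hK1 : 10 * l + 1 ≤ K := by
    rw [hK]
    push_cast
    linarith [Nat.le_ceil (10 * l)]
  have hK2 : (K : ℝ) ≤ 11 * l := by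
    rw [hK]
    push_cast
    have := Nat.ceil_lt_add_one (show 0 ≤ 10 * l by linarith)
    linarith
  have hKp : 0 < K := by omega
  have hKp' : (0 : ℝ) < K := by exact_mod_cast hKp
  obtain ⟨s, hs⟩ : ∃ s, s = N / (16 * K) := ⟨_, rfl⟩
  obtain ⟨H, hH⟩ : ∃ H, H = N / 4 := ⟨_, rfl⟩
  have hs1 : 16 * (K * s) ≤ N := by
    rw [hs, ← mul_assoc]; exact Nat.mul_div_le _ _
  have hs2 : N < 16 * K * (s + 1) := by
    rw [hs]; exact Nat.lt_mul_div_succ _ (by positivity)
  have hs2' : (N : ℝ) < 16 * K * (s + 1) := by exact_mod_cast hs2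
  have hNK : 64 * (K : ℝ) ≤ N := by linarith
  have hsR : (N : ℝ) / (16 * K) ≤ 2 * s - 1 := by
    rw [div_le_iff₀ (by positivity)]
    nlinarith
  have hs3 : (1 : ℝ) ≤ s := by
    have h1 : (1 : ℝ) ≤ N / (16 * K) := by
      rw [one_le_div (by positivity)]
      linarith
    linarith
  have hs4 : 1 ≤ s := by exact_mod_cast hs3
  obtain ⟨β, hβ⟩ : ∃ β, β = 52800 * l ^ 2 / N := ⟨_, rfl⟩
  rw [← hβ] at hcon
  have hβ0 : 1 / N ≤ β := by
    rw [hβ]
    refine div_le_div_of_nonneg_right ?_ hNp.le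
    nlinarith
  have hβp : 0 < β := lt_of_lt_of_le (by positivity) hβ0
  have hlow : ∀ n : ℕ, 2 * s - 1 ≤ n → (N : ℝ) / (176 * l) ≤ n := by
    intro n hn
    have h1 : (2 * s - 1 : ℝ) ≤ n := by
      have : (2 * s : ℕ) ≤ n + 1 := by omega
      have h2 : ((2 * s : ℕ) : ℝ) ≤ ((n + 1 : ℕ) : ℝ) := by exact_mod_cast this
      push_cast at h2
      linarith
    refine le_trans ?_ (hsR.trans h1)
    refine div_le_div_of_nonneg_left hNp.le (by positivity) ?_
    linarith
  have hbad : ∀ n : ℕ, 2 * s - 1 ≤ n → n ≤ N → Odd n → β * b n < bo (n + 1) * μ := by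
    intro n h1 h2 h3
    have h4 := hcon n (hlow n h1) h2 h3
    rw [LS_bo, cS_b, pow_succ] at h4
    have hμ := pow_pos mu_pos n
    have h8 : (β * b n) * μ ^ n < (bo (n + 1) * μ) * μ ^ n := by
      calc _ = β * (b n * μ ^ n) := by ring
        _ < _ := h4
        _ = _ := by ring
    exact lt_of_mul_lt_mul_right h8 hμ.le
  have hbo : ∀ n : ℕ, 2 * s - 1 ≤ n → n ≤ N → Odd n → b n ≤ 1125 * (N : ℝ) ^ 3 := by
    intro n h1 h2 h3
    have h4 := hbad n h1 h2 h3
    have h5 : bo (n + 1) * μ ^ (n + 1) ≤ (((n + 1 : ℕ) : ℝ) + 1) ^ 2 * μ ^ 2 * μ ^ (n + 1) := by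
      rw [← LS_bo]
      refine (LS_le (n + 1) (by omega)).trans (le_of_eq ?_)
      rw [pow_add μ (n + 1) 2]
      ring
    have h6 := le_of_mul_le_mul_right h5 (pow_pos mu_pos (n + 1))
    push_cast at h6
    have h7 : (n : ℝ) ≤ N := by exact_mod_cast h2
    have h8 : ((n : ℝ) + 1 + 1) ^ 2 ≤ (3 * N) ^ 2 := pow_le_pow_left₀ (by positivity) (by linarith) 2
    have h9 : μ ^ 2 ≤ 5 ^ 2 := pow_le_pow_left₀ mu_pos.le mu_le 2
    have h10 : bo (n + 1) ≤ (3 * N) ^ 2 * 5 ^ 2 :=
      h6.trans (mul_le_mul h8 h9 (by positivity) (by positivity))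
    have h11 : bo (n + 1) * μ ≤ ((3 * N) ^ 2 * 5 ^ 2) * 5 :=
      mul_le_mul h10 mu_le mu_pos.le (by positivity)
    have hb := one_le_b n
    have h12 : 1 / N * b n ≤ β * b n := mul_le_mul_of_nonneg_right hβ0 (by linarith)
    have h13 : 1 / N * b n ≤ ((3 * N) ^ 2 * 5 ^ 2) * 5 := by linarith
    rw [one_div, inv_mul_le_iff₀ hNp] at h13
    refine h13.trans (le_of_eq ?_)
    ring
  have hball : ∀ n : ℕ, 2 * s ≤ n → n ≤ N → b n ≤ 2250 * (N : ℝ) ^ 3 := by
    intro n h1 h2
    have hN3 : (0 : ℝ) ≤ (N : ℝ) ^ 3 := by positivity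
    rcases Nat.even_or_odd n with h | h
    · have h3 : Odd (n - 1) := by
        obtain ⟨k, hk⟩ := h
        exact ⟨k - 1, by omega⟩
      have h4 := b_succ (n - 1)
      rw [show n - 1 + 1 = n by omega] at h4
      have h5 := hbo (n - 1) (by omega) (by omega) h3
      linarith
    · have := hbo n (by omega) h2 h
      linarith
  -- the windows
  obtain ⟨Xw, hXw⟩ : ∃ Xw : ℕ → ℝ, Xw = fun k =>
    ∑ n ∈ Finset.Ioc (2 * (H - k * s)) (2 * (H + k * s)), b n := ⟨_, rfl⟩
  have hks : ∀ k, k ≤ K → k * s ≤ K * s := fun k hk => Nat.mul_le_mul_right _ hk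
  have hX0 : ∀ k, 1 ≤ k → k ≤ K → 1 ≤ Xw k := by
    intro k hk hkK
    have h0 := hks k hkK
    rw [hXw]
    have h1 : 2 * (H + k * s) ∈ Finset.Ioc (2 * (H - k * s)) (2 * (H + k * s)) := by
      rw [Finset.mem_Ioc]
      have : 1 * 1 ≤ k * s := Nat.mul_le_mul hk hs4
      omega
    exact (one_le_b _).trans (Finset.single_le_sum (f := b)
      (fun n _ => by linarith [one_le_b n]) h1)
  have hstep : ∀ k, 1 ≤ k → k + 1 ≤ K → 2 * Xw k ≤ Xw (k + 1) := by
    intro k hk hkK
    have h0 := hks (k + 1) hkK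
    have h00 : (k + 1) * s = k * s + s := by ring
    obtain ⟨P, hP⟩ : ∃ P, P = ∑ n ∈ Finset.Ioc (2 * (H - k * s)) (2 * (H + k * s)), bo n :=
      ⟨_, rfl⟩
    have hX1 := hX0 (k + 1) (by omega) hkK
    have hXk := hX0 k hk (by omega)
    -- lower bound
    have hPl : β / 15 * Xw k ≤ P := by
      rw [hP, hXw]
      simp only
      rw [sum_pairs bo (show H - k * s ≤ H + k * s by omega),
        sum_pairs b (show H - k * s ≤ H + k * s by omega), Finset.mul_sum]
      refine Finset.sum_le_sum fun i hi => ?_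
      rw [Finset.mem_Ico] at hi
      have h1 := hbad (2 * i + 1) (by omega) (by omega) ⟨i, rfl⟩
      have h2 := b_succ (2 * i + 1)
      rw [show 2 * i + 1 + 1 = 2 * i + 2 by ring] at h1 h2
      have h3 : bo (2 * i + 2) * μ ≤ bo (2 * i + 2) * 5 :=
        mul_le_mul_of_nonneg_left mu_le (bo_nonneg _)
      have h4 := bo_nonneg (2 * i + 1)
      have h5 : β / 15 * (b (2 * i + 1) + b (2 * i + 2)) ≤ β / 15 * (3 * b (2 * i + 1)) :=
        mul_le_mul_of_nonneg_left (by linarith) (by positivity)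
      linarith
    have hP0 : 0 < P := lt_of_lt_of_le (by positivity) hPl
    have hloc := localIneq (A := 2 * (H - (k + 1) * s)) (B := 2 * (H + k * s)) (s := 2 * s)
      (P := P) (X := Xw (k + 1)) (by omega) (by omega)
      (by rw [hP, show 2 * (H - (k + 1) * s) + 2 * s = 2 * (H - k * s) by omega])
      (by rw [hXw]; simp only; rw [show 2 * (H + (k + 1) * s) = 2 * (H + k * s) + 2 * s by omega])
      hP0 (by linarith)
    obtain ⟨κ, hκ⟩ : ∃ κ, κ = P / Xw (k + 1) := ⟨_, rfl⟩
    have hκ0 : 0 < κ := by rw [hκ]; exact div_pos hP0 (by linarith)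
    have hPκ : P = κ * Xw (k + 1) := by
      rw [hκ, div_mul_cancel₀]
      exact (by linarith : (0 : ℝ) < Xw (k + 1)).ne'
    rw [← hκ] at hloc
    push_cast at hloc
    have hbs : b (2 * s) ≤ 2250 * (N : ℝ) ^ 3 := by
      refine hball (2 * s) le_rfl ?_
      have : 1 * s ≤ K * s := Nat.mul_le_mul_right _ hKp
      omega
    have hκs : κ * (2 * s) ≤ 10 * l := by
      rcases le_or_gt (κ * N) 1 with h1 | h1
      · have h2 : (2 * s : ℝ) ≤ N := by
          have : 1 * s ≤ K * s := Nat.mul_le_mul_right _ hKp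
          exact_mod_cast (show 2 * s ≤ N by omega)
        have := mul_le_mul_of_nonneg_left h2 hκ0.le
        linarith
      · have h2 : Real.exp (2 * s * κ / 2) ≤ Real.exp 1 * (2250 * (N : ℝ) ^ 4) := by
          have h3 : κ * Real.exp (2 * s * κ / 2) ≤ Real.exp 1 * (2250 * (N : ℝ) ^ 3) :=
            hloc.trans (mul_le_mul_of_nonneg_left hbs (Real.exp_pos _).le)
          have h4 := mul_le_mul_of_nonneg_left h3 hNp.le
          have h5 : 1 * Real.exp (2 * s * κ / 2) ≤ (κ * N) * Real.exp (2 * s * κ / 2) :=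
            mul_le_mul_of_nonneg_right h1.le (Real.exp_pos _).le
          calc Real.exp (2 * s * κ / 2) ≤ (κ * N) * Real.exp (2 * s * κ / 2) := by linarith
            _ = N * (κ * Real.exp (2 * s * κ / 2)) := by ring
            _ ≤ N * (Real.exp 1 * (2250 * (N : ℝ) ^ 3)) := h4
            _ = _ := by ring
        have h3 := Real.log_le_log (Real.exp_pos _) h2
        rw [Real.log_exp, Real.log_mul (Real.exp_pos _).ne' (by positivity), Real.log_exp,
          Real.log_mul (by norm_num) (by positivity), Real.log_pow, ← hl] at h3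
        push_cast at h3
        have h4 : Real.log 2250 ≤ 8 := by
          rw [Real.log_le_iff_le_exp (by norm_num)]
          have h5 : Real.exp 8 = Real.exp 1 ^ 8 := by rw [← Real.exp_nat_mul]; norm_num
          rw [h5]
          refine le_trans ?_ (pow_le_pow_left₀ (by norm_num) Real.exp_one_gt_d9.le 8)
          norm_num
        linarith
    -- conclusion
    have h1 : β / 15 * Xw k ≤ κ * Xw (k + 1) := hPl.trans hPκ.le
    have h2 : 300 * l ≤ β * (2 * s) := by
      have h3 : (N : ℝ) / (176 * l) ≤ 2 * s := by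
        have := hlow (2 * s) (by omega)
        push_cast at this
        exact this
      have h4 : β * (N / (176 * l)) ≤ β * (2 * s) := mul_le_mul_of_nonneg_left h3 hβp.le
      have h5 : β * (N / (176 * l)) = 300 * l := by
        rw [hβ]
        have hl0 : l ≠ 0 := by linarith
        field_simp
        ring
      linarith
    have h3 : (β / 15 * Xw k) * (2 * s) ≤ (κ * Xw (k + 1)) * (2 * s) :=
      mul_le_mul_of_nonneg_right h1 (by positivity)
    have h4 : (300 * l) * (Xw k / 15) ≤ (β * (2 * s)) * (Xw k / 15) :=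
      mul_le_mul_of_nonneg_right h2 (by positivity)
    have h5 : (κ * (2 * s)) * Xw (k + 1) ≤ (10 * l) * Xw (k + 1) :=
      mul_le_mul_of_nonneg_right hκs (by linarith)
    have h6 : (10 * l) * (2 * Xw k) ≤ (10 * l) * Xw (k + 1) := by
      calc (10 * l) * (2 * Xw k) = (300 * l) * (Xw k / 15) := by ring
        _ ≤ (β * (2 * s)) * (Xw k / 15) := h4
        _ = (β / 15 * Xw k) * (2 * s) := by ring
        _ ≤ (κ * Xw (k + 1)) * (2 * s) := h3
        _ = (κ * (2 * s)) * Xw (k + 1) := by ring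
        _ ≤ _ := h5
    exact le_of_mul_le_mul_left h6 (by linarith)
  have hgrow : ∀ k, k + 1 ≤ K → (2 : ℝ) ^ k ≤ Xw (k + 1) := by
    intro k
    induction k with
    | zero => intro h; rw [pow_zero]; exact hX0 1 le_rfl h
    | succ k ih =>
      intro h
      have h1 := ih (by omega)
      have h2 := hstep (k + 1) (by omega) h
      rw [pow_succ]
      linarith
  have hfin := hgrow (K - 1) (by omega)
  rw [show K - 1 + 1 = K by omega] at hfin
  have hup : Xw K ≤ 2250 * (N : ℝ) ^ 4 := by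
    rw [hXw]
    simp only
    have h1 : ∀ n ∈ Finset.Ioc (2 * (H - K * s)) (2 * (H + K * s)), b n ≤ 2250 * (N : ℝ) ^ 3 := by
      intro n hn
      rw [Finset.mem_Ioc] at hn
      have : 1 * s ≤ K * s := Nat.mul_le_mul_right _ hKp
      exact hball n (by omega) (by omega)
    refine (Finset.sum_le_sum h1).trans ?_
    rw [Finset.sum_const, Nat.card_Ioc, nsmul_eq_mul]
    have h2 : ((2 * (H + K * s) - 2 * (H - K * s) : ℕ) : ℝ) ≤ N := by
      exact_mod_cast (show 2 * (H + K * s) - 2 * (H - K * s) ≤ N by omega)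
    calc ((2 * (H + K * s) - 2 * (H - K * s) : ℕ) : ℝ) * (2250 * (N : ℝ) ^ 3) ≤
          N * (2250 * (N : ℝ) ^ 3) := mul_le_mul_of_nonneg_right h2 (by positivity)
      _ = _ := by ring
  have h1 := Real.log_le_log (by positivity) (hfin.trans hup)
  rw [Real.log_pow, Real.log_mul (by norm_num) (by positivity), Real.log_pow, ← hl] at h1
  have h4 : Real.log 2250 ≤ 8 := by
    rw [Real.log_le_iff_le_exp (by norm_num)]
    have h5 : Real.exp 8 = Real.exp 1 ^ 8 := by rw [← Real.exp_nat_mul]; norm_num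
    rw [h5]
    refine le_trans ?_ (pow_le_pow_left₀ (by norm_num) Real.exp_one_gt_d9.le 8)
    norm_num
  have h5 : (10 * l : ℝ) ≤ ((K - 1 : ℕ) : ℝ) := by
    rw [Nat.cast_sub (by omega)]
    push_cast
    linarith
  have h6 := Real.log_two_gt_d9
  have h7 : (10 * l) * 0.69 ≤ ((K - 1 : ℕ) : ℝ) * Real.log 2 :=
    mul_le_mul h5 (by linarith) (by norm_num) (Nat.cast_nonneg _)
  push_cast at h1
  linarith

end Pool.Agent.Helper17.CP
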