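import Pool.Agent.Helper17.CP.Scale

/-!
# The bound for the generating functions
-/

set_option autoImplicit false

open Finset
open scoped Classical

namespace Pool.Agent.Helper17.CP

open Pool.Agent.H46R2.K3 (St V vec)
open Pool.Agent.H46R2.K3.P

theorem summable_c {z : ℝ} (hz : 0 < z) (hz1 : z < 1 / μ) :
    Summable (fun n => cS vec n * z ^ n) := by
  have hm := mu_pos
  rw [lt_div_iff₀ hm] at hz1
  have hzm : 0 < z * μ := by positivity
  obtain ⟨τ, hτ⟩ : ∃ τ, τ = (1 / (z * μ) - 1) / 2 := ⟨_, rfl⟩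
  have h1 : 1 < 1 / (z * μ) := by rw [lt_div_iff₀ hzm]; linarith
  have hτ0 : 0 < τ := by rw [hτ]; linarith
  obtain ⟨C, hC, h⟩ := TH966.KO.growth τ hτ0
  have hr : (1 + τ) * μ * z < 1 := by
    have h2 : (1 + τ) * μ * z = (1 + z * μ) / 2 := by
      rw [hτ]
      field_simp
      ring
    rw [h2]
    linarith
  refine Summable.of_nonneg_of_le (fun n => mul_nonneg (cS_nonneg _ _) (pow_nonneg hz.le _))
    (fun n => ?_) ((summable_geometric_of_lt_one (by positivity) hr).mul_left C)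
  have h3 : cS vec n ≤ C * ((1 + τ) * μ) ^ n := by
    rw [cS_eq]
    exact h n
  calc cS vec n * z ^ n ≤ C * ((1 + τ) * μ) ^ n * z ^ n :=
        mul_le_mul_of_nonneg_right h3 (pow_nonneg hz.le _)
    _ = C * ((1 + τ) * μ * z) ^ n := by rw [mul_pow _ z]; ring

theorem sum_geo (j : ℕ) : ∑ i ∈ Finset.range j, ((i : ℝ) + 1) / 2 ^ i = 4 - (2 * j + 4) / 2 ^ j := by
  induction j with
  | zero => norm_num
  | succ j ih =>
    rw [Finset.sum_range_succ, ih, pow_succ]
    push_cast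
    have : (2 : ℝ) ^ j ≠ 0 := by positivity
    field_simp
    ring

theorem dyadic {z : ℝ} (hz : 0 < z) (hz1 : z < 1 / μ) {N : ℕ} (hN : 2 ≤ N) (j : ℕ) :
    ∑ n ∈ Finset.Ioc N (2 ^ j * N), LS vec n * z ^ n ≤
      (∑ i ∈ Finset.range j, ((i : ℝ) + 1) / 2 ^ i) *
        (200 * (Real.log N / N) * ∑' n, cS vec n * z ^ n) := by
  have hS := summable_c hz hz1
  have hN0 : (2 : ℝ) ≤ N := by exact_mod_cast hN
  have hNp : (0 : ℝ) < N := by linarith
  induction j with
  | zero => simp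
  | succ j ih =>
    have h1 : N ≤ 2 ^ j * N := Nat.le_mul_of_pos_left _ (by positivity)
    have e1 : 2 ^ (j + 1) * N = 2 * (2 ^ j * N) := by rw [pow_succ]; ring
    rw [← Finset.sum_Ioc_consecutive _ h1 (show 2 ^ j * N ≤ 2 ^ (j + 1) * N by rw [e1]; omega),
      Finset.sum_range_succ, add_mul, e1]
    refine add_le_add ih ?_
    have h2 := windows hz hz1.le (M := 2 ^ j * N) (by omega)
    refine h2.trans ?_
    have h3 : ∑ n ∈ Finset.range (3 * (2 ^ j * N) + 1), cS vec n * z ^ n ≤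
        ∑' n, cS vec n * z ^ n :=
      hS.sum_le_tsum _ fun n _ => mul_nonneg (cS_nonneg _ _) (pow_nonneg hz.le _)
    have h4 : 0 ≤ ∑' n, cS vec n * z ^ n :=
      tsum_nonneg fun n => mul_nonneg (cS_nonneg _ _) (pow_nonneg hz.le _)
    have hl : 0 < Real.log N := Real.log_pos (by linarith)
    have h5 : Real.log ((2 ^ j * N : ℕ) : ℝ) / ((2 ^ j * N : ℕ) : ℝ) ≤
        ((j : ℝ) + 1) / 2 ^ j * (Real.log N / N) := by
      push_cast
      rw [Real.log_mul (by positivity) hNp.ne', Real.log_pow]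
      have h6 : (j : ℝ) * Real.log 2 + Real.log N ≤ (j + 1) * Real.log N := by
        have := mul_le_mul_of_nonneg_left (Real.log_le_log (by norm_num) hN0) (Nat.cast_nonneg (α := ℝ) j)
        linarith
      rw [div_mul_div_comm]
      exact div_le_div_of_nonneg_right h6 (by positivity)
    have h6 : (0 : ℝ) ≤ Real.log ((2 ^ j * N : ℕ) : ℝ) / ((2 ^ j * N : ℕ) : ℝ) :=
      div_nonneg (Real.log_natCast_nonneg _) (Nat.cast_nonneg _)
    calc 200 * (Real.log ((2 ^ j * N : ℕ) : ℝ) / ((2 ^ j * N : ℕ) : ℝ)) *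
          ∑ n ∈ Finset.range (3 * (2 ^ j * N) + 1), cS vec n * z ^ n
        ≤ 200 * (((j : ℝ) + 1) / 2 ^ j * (Real.log N / N)) * ∑' n, cS vec n * z ^ n :=
          mul_le_mul (mul_le_mul_of_nonneg_left h5 (by norm_num)) h3
            (Finset.sum_nonneg fun n _ => mul_nonneg (cS_nonneg _ _) (pow_nonneg hz.le _))
            (by positivity)
      _ = _ := by ring

/-- **The bound for the generating functions.** -/
theorem series {z : ℝ} (hz : 0 < z) (hz1 : z < 1 / μ) {N : ℕ} (hN : 2 ≤ N) :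
    ∑' n : ℕ, (if N < n then LS vec n * z ^ n else 0) ≤
      800 * (Real.log N / N) * ∑' n, cS vec n * z ^ n := by
  have hnn : ∀ n : ℕ, 0 ≤ (if N < n then LS vec n * z ^ n else 0) := by
    intro n
    split_ifs
    · exact mul_nonneg (LS_nonneg _ _) (pow_nonneg hz.le _)
    · exact le_rfl
  have hN0 : (2 : ℝ) ≤ N := by exact_mod_cast hN
  have hl : 0 < Real.log N := Real.log_pos (by linarith)
  have h4 : 0 ≤ ∑' n, cS vec n * z ^ n :=
    tsum_nonneg fun n => mul_nonneg (cS_nonneg _ _) (pow_nonneg hz.le _)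
  refine Real.tsum_le_of_sum_range_le hnn fun T => ?_
  have h1 : ∑ n ∈ Finset.range T, (if N < n then LS vec n * z ^ n else 0) ≤
      ∑ n ∈ Finset.Ioc N (2 ^ T * N), LS vec n * z ^ n := by
    rw [← Finset.sum_filter]
    refine Finset.sum_le_sum_of_subset_of_nonneg ?_ fun n _ _ =>
      mul_nonneg (LS_nonneg _ _) (pow_nonneg hz.le _)
    intro n hn
    rw [Finset.mem_filter, Finset.mem_range] at hn
    rw [Finset.mem_Ioc]
    refine ⟨hn.2, hn.1.le.trans ?_⟩
    have h2 : T < 2 ^ T := Nat.lt_two_pow_self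
    calc T ≤ 2 ^ T * 1 := by omega
      _ ≤ 2 ^ T * N := Nat.mul_le_mul_left _ (by omega)
  refine h1.trans ((dyadic hz hz1 hN T).trans ?_)
  have h2 : ∑ i ∈ Finset.range T, ((i : ℝ) + 1) / 2 ^ i ≤ 4 := by
    rw [sum_geo]
    have : (0 : ℝ) ≤ (2 * T + 4) / 2 ^ T := by positivity
    linarith
  calc (∑ i ∈ Finset.range T, ((i : ℝ) + 1) / 2 ^ i) *
        (200 * (Real.log N / N) * ∑' n, cS vec n * z ^ n) ≤
        4 * (200 * (Real.log N / N) * ∑' n, cS vec n * z ^ n) :=
        mul_le_mul_of_nonneg_right h2 (by positivity)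
    _ = _ := by ring

end Pool.Agent.Helper17.CP
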